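import Pool.Agent.LRT.VC
import Pool.Agent.H45.MatherKey

/-!
EK1: averaging data for Lagrangians `K (v) + A (x)·v - V (x)` at the velocity `t ω` (after H45/MatherKey, MatherKey2).
-/

set_option autoImplicit false
set_option linter.unusedSectionVars false
set_option linter.style.haveILetI false

open MeasureTheory Module Set Filter Topology

namespace Pool.Agent.EMK

open Pool.H45.Mather Pool.Agent.LRT

noncomputable section

variable {n : ℕ} {E : Type*} [NormedAddCommGroup E] [InnerProductSpace ℝ E] [FiniteDimensional ℝ E]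
  [MeasurableSpace E] [BorelSpace E] {b : Basis (Fin n) ℝ E}

/-- the Lagrangian `K (v) + A (x)·v - V (x)` -/
def LagK (K : E → ℝ) (A : E → E) (V : E → ℝ) (z : E × E) : ℝ := K z.2 + inner ℝ (A z.1) z.2 - V z.1

/-- two-sided quadratic bounds of `K` at the velocity `h` -/
structure LocK (K : E → ℝ) (h p : E) (La m ρ : ℝ) : Prop where
  lo : ∀ z, ‖z‖ ≤ ρ → K h + inner ℝ p z + m / La * ‖z‖ ^ 2 ≤ K (h + z)
  up : ∀ z, ‖z‖ ≤ ρ → K (h + z) ≤ K h + inner ℝ p z + La * m * ‖z‖ ^ 2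
  far : ∀ z, ρ ≤ ‖z‖ → K h + inner ℝ p z + m / La * ρ * ‖z‖ ≤ K (h + z)

lemma LocK.fen {K : E → ℝ} {h p : E} {La m ρ : ℝ} (H : LocK K h p La m ρ) (hLa : 0 < La) (hm : 0 < m) {g : E}
    (hg : ‖g‖ ≤ m / La * ρ) (v : E) :
    inner ℝ (p + g) v ≤ K v + (inner ℝ p h - K h + inner ℝ g h + La / (4 * m) * ‖g‖ ^ 2) := by
  set z : E := v - h with hz
  have hv : v = h + z := by rw [hz]; abel
  rw [hv, inner_add_left, inner_add_right, inner_add_right]
  have h1 := real_inner_le_norm g z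
  rcases le_or_gt ‖z‖ ρ with h2 | h2
  · have h3 := H.lo z h2
    have h4 : ‖g‖ * ‖z‖ ≤ m / La * ‖z‖ ^ 2 + La / (4 * m) * ‖g‖ ^ 2 := by
      have h5 : m / La * ‖z‖ ^ 2 + La / (4 * m) * ‖g‖ ^ 2 - ‖g‖ * ‖z‖ =
          (m / La) * (‖z‖ - La / (2 * m) * ‖g‖) ^ 2 := by
        field_simp
        ring
      have h6 : 0 ≤ (m / La) * (‖z‖ - La / (2 * m) * ‖g‖) ^ 2 := by positivity
      linarith
    linarith
  · have h3 := H.far z h2.le
    have h4 := mul_le_mul_of_nonneg_right hg (norm_nonneg z)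
    have h5 : 0 ≤ La / (4 * m) * ‖g‖ ^ 2 := by positivity
    linarith

/-- The averaging data at the velocity `t ω`, with energy scale `Λ` and mass `m`. -/
structure DatK (b : Basis (Fin n) ℝ E) (K : E → ℝ) (A : E → E) (V : E → ℝ) (k : Fin n → ℤ) (ω p : E)
    (χ fl : E → ℝ) (t Λ ε CA Gχ CF fM La m ρ : ℝ) : Prop where
  hL : TonL b (LagK K A V)
  hA : Continuous A
  hAp : Per b A
  hV : Continuous V
  hVp : Per b V
  hK : LocK K (t • ω) p La m ρ
  hLa : 1 ≤ La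
  hm : 0 < m
  hρ : 0 < ρ
  ht : 0 < t
  hΛ : 0 < Λ
  hε : 0 < ε
  hkω : lin b k ω = 0
  hχ : ContDiff ℝ 1 χ
  hχp : Per b χ
  hG : ∀ x, ‖fderiv ℝ χ x‖ ≤ Gχ
  hCA : ∀ x, ‖A x‖ ≤ CA
  hfc : Continuous fl
  hfp : Per b fl
  hfl : ∀ x y, lin b k x = lin b k y → fl x = fl y
  hfM : ∀ x, fl x ≤ fM
  hfM' : ∃ x, fl x = fM
  h2 : La * CA ^ 2 ≤ Λ * ε * m
  h3 : La * (Λ / t * Gχ + CA) ^ 2 ≤ Λ * ε * m
  h4 : ∀ x, |V x - t * inner ℝ (A x) ω| ≤ Λ * CF
  h5 : ∀ x, |V x - t * inner ℝ (A x) ω + Λ * (fderiv ℝ χ x ω - fl x)| ≤ Λ * ε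
  h6 : La * ε * Λ ≤ m * ρ ^ 2

section
variable {K : E → ℝ} {A : E → E} {V : E → ℝ} {k : Fin n → ℤ} {ω p : E} {χ fl : E → ℝ}
  {t Λ ε CA Gχ CF fM La m ρ : ℝ}

lemma DatK.CA0 (D : DatK b K A V k ω p χ fl t Λ ε CA Gχ CF fM La m ρ) : 0 ≤ CA :=
  (norm_nonneg _).trans (D.hCA 0)

lemma DatK.G0 (D : DatK b K A V k ω p χ fl t Λ ε CA Gχ CF fM La m ρ) : 0 ≤ Gχ :=
  (norm_nonneg _).trans (D.hG 0)

lemma DatK.La0 (D : DatK b K A V k ω p χ fl t Λ ε CA Gχ CF fM La m ρ) : 0 < La :=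
  lt_of_lt_of_le one_pos D.hLa

/-- explicit almost-subsolution -/
lemma DatK.ptw (D : DatK b K A V k ω p χ fl t Λ ε CA Gχ CF fM La m ρ) {q : E}
    (hq : ‖q‖ + (Λ / t * Gχ + CA) ≤ m / La * ρ) (x v : E) :
    inner ℝ (p + q) v + fderiv ℝ (fun x => Λ / t * χ x) x v ≤ LagK K A V (x, v) +
      (inner ℝ p (t • ω) - K (t • ω) + inner ℝ q (t • ω) + Λ * (fl x + ε) +
        La / (4 * m) * (‖q‖ + (Λ / t * Gχ + CA)) ^ 2) := by
  have ht := D.ht
  have hΛ := D.hΛ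
  have hm := D.hm
  have hLa := D.La0
  have hd : fderiv ℝ (fun x => Λ / t * χ x) x = (Λ / t) • fderiv ℝ χ x := by
    have := (D.hχ.differentiable one_ne_zero x).hasFDerivAt.const_mul (Λ / t)
    exact this.fderiv
  rw [hd]
  set G : E := (InnerProductSpace.toDual ℝ E).symm (fderiv ℝ χ x) with hG
  have hGn : ‖G‖ ≤ Gχ := by
    rw [hG, LinearIsometryEquiv.norm_map]
    exact D.hG x
  have hGi : ∀ w, inner ℝ G w = fderiv ℝ χ x w := fun w => by
    rw [hG, InnerProductSpace.toDual_symm_apply]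
  set g : E := (Λ / t) • G - A x with hg
  have hgn : ‖g‖ ≤ Λ / t * Gχ + CA := by
    refine (norm_sub_le _ _).trans (add_le_add ?_ (D.hCA x))
    rw [norm_smul, Real.norm_eq_abs, abs_of_pos (by positivity)]
    exact mul_le_mul_of_nonneg_left hGn (by positivity)
  have hgi : ∀ w, inner ℝ g w = Λ / t * fderiv ℝ χ x w - inner ℝ (A x) w := fun w => by
    rw [hg, inner_sub_left, inner_smul_left, hGi]
    simp
  have hqg : ‖q + g‖ ≤ ‖q‖ + (Λ / t * Gχ + CA) := (norm_add_le _ _).trans (add_le_add le_rfl hgn)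
  have h1 := D.hK.fen hLa hm (hqg.trans hq) v
  have h2 : ‖q + g‖ ^ 2 ≤ (‖q‖ + (Λ / t * Gχ + CA)) ^ 2 := pow_le_pow_left₀ (norm_nonneg _) hqg 2
  have h3 : inner ℝ g (t • ω) = Λ * fderiv ℝ χ x ω - t * inner ℝ (A x) ω := by
    rw [hgi, map_smul, inner_smul_right, smul_eq_mul]
    field_simp
  have h4 : La / (4 * m) * ‖q + g‖ ^ 2 ≤ La / (4 * m) * (‖q‖ + (Λ / t * Gχ + CA)) ^ 2 :=
    mul_le_mul_of_nonneg_left h2 (by positivity)
  have h6 := (abs_le.1 (D.h5 x)).2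
  have h7 : inner ℝ (p + (q + g)) v = inner ℝ (p + q) v + (Λ / t * fderiv ℝ χ x v - inner ℝ (A x) v) := by
    rw [← add_assoc, inner_add_left, hgi]
  have h8 : inner ℝ (q + g) (t • ω) = inner ℝ q (t • ω) + (Λ * fderiv ℝ χ x ω - t * inner ℝ (A x) ω) := by
    rw [inner_add_left, h3]
  rw [h7, h8] at h1
  unfold LagK
  simp only [_root_.smul_apply, smul_eq_mul]
  linarith

lemma DatK.gam (D : DatK b K A V k ω p χ fl t Λ ε CA Gχ CF fM La m ρ) :
    0 ≤ Λ / t * Gχ + CA ∧ Λ / t * Gχ + CA ≤ m / La * ρ := by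
  have ht := D.ht
  have hΛ := D.hΛ
  have hm := D.hm
  have hLa := D.La0
  have hρ := D.hρ
  have hε := D.hε
  have h0 : 0 ≤ Λ / t * Gχ + CA := add_nonneg (mul_nonneg (by positivity) D.G0) D.CA0
  refine ⟨h0, ?_⟩
  have h1 := D.h3
  have h2 := D.h6
  have h3 : (Λ / t * Gχ + CA) ^ 2 ≤ (m / La * ρ) ^ 2 := by
    have e : (m / La * ρ) ^ 2 = m * (m * ρ ^ 2) / (La * La) := by field_simp
    rw [e, le_div_iff₀ (by positivity)]
    have h4 : m * (La * ε * Λ) ≤ m * (m * ρ ^ 2) := mul_le_mul_of_nonneg_left h2 hm.le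
    have h5 : La * (La * (Λ / t * Gχ + CA) ^ 2) ≤ La * (Λ * ε * m) := mul_le_mul_of_nonneg_left h1 hLa.le
    nlinarith
  exact (pow_le_pow_iff_left₀ h0 (by positivity) two_ne_zero).1 h3

lemma DatK.lower (D : DatK b K A V k ω p χ fl t Λ ε CA Gχ CF fM La m ρ) :
    K (t • ω) - Λ * (fM + 2 * ε) ≤ betaL b (LagK K A V) (t • ω) := by
  obtain ⟨hγ0, hγ⟩ := D.gam
  have hm := D.hm
  have hLa := D.La0
  have hsub : SubL (LagK K A V) p (inner ℝ p (t • ω) - K (t • ω) + Λ * (fM + 2 * ε))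
      (fun x => Λ / t * χ x) := by
    intro x v
    have := D.ptw (q := 0) (by rw [norm_zero, zero_add]; exact hγ) x v
    rw [add_zero, norm_zero, zero_add, inner_zero_left, add_zero] at this
    have h1 := D.hfM x
    have h2 := D.h3
    have h3 : Λ * fl x ≤ Λ * fM := mul_le_mul_of_nonneg_left h1 D.hΛ.le
    have h4 : 0 < Λ * ε := mul_pos D.hΛ D.hε
    have h5 : La / (4 * m) * (Λ / t * Gχ + CA) ^ 2 ≤ Λ * ε := by
      rw [div_mul_eq_mul_div, div_le_iff₀ (by positivity)]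
      nlinarith
    linarith
  have hstar := hsub.star D.hL (contDiff_const.mul D.hχ) (D.hχp.comp (fun y => Λ / t * y))
  have := hstar.le_beta (t • ω)
  linarith

lemma continuous_LagK (hL : TonL b (LagK K A V)) : Continuous (LagK K A V) := hL.cont

lemma DatK.upper (D : DatK b K A V k ω p χ fl t Λ ε CA Gχ CF fM La m ρ) {r : E} (hr : lin b k r = 0) :
    betaL b (LagK K A V) r ≤ K r + CA * ‖r - t • ω‖ - Λ * (fM - 2 * ε) := by
  have hinv : ∀ {w : E}, lin b k w = 0 → ∀ (τ : ℝ) x, fl (x + τ • w) = fl x := by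
    intro w hw τ x
    apply D.hfl
    rw [map_add, map_smul, hw, smul_zero, add_zero]
  set Ψ₀ : E → ℝ := fun x => max 0 (fl x - (fM - ε)) with hΨ₀
  have hc0 : Continuous Ψ₀ := continuous_const.max (D.hfc.sub continuous_const)
  have hp0 : Per b Ψ₀ := D.hfp.comp (fun y => max 0 (y - (fM - ε)))
  have hn0 : ∀ x, 0 ≤ Ψ₀ x := fun x => le_max_left _ _
  obtain ⟨x₀, hx₀⟩ := D.hfM'
  have hI : 0 < ∫ x, Ψ₀ x ∂(lam b) := by
    refine lam_pos hp0 hc0 hn0 (x₀ := x₀) ?_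
    simp only [hΨ₀, hx₀]
    exact lt_of_lt_of_le (by linarith [D.hε] : 0 < fM - (fM - ε)) (le_max_right _ _)
  set N : ℝ := (∫ x, Ψ₀ x ∂(lam b))⁻¹ with hN
  have hN0 : 0 < N := inv_pos.2 hI
  set Ψ : E → ℝ := fun x => N * Ψ₀ x with hΨ
  have hc : Continuous Ψ := continuous_const.mul hc0
  have hp : Per b Ψ := hp0.comp (fun y => N * y)
  have hn : ∀ x, 0 ≤ Ψ x := fun x => mul_nonneg hN0.le (hn0 x)
  have h1 : ∫ x, Ψ x ∂(lam b) = 1 := by
    simp only [hΨ]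
    rw [integral_const_mul, hN, inv_mul_cancel₀ hI.ne']
  have hΨinv : ∀ {w : E}, lin b k w = 0 → ∀ (τ : ℝ) x, Ψ (x + τ • w) = Ψ x := by
    intro w hw τ x
    simp only [hΨ, hΨ₀, hinv hw τ x]
  have hcl := tm_closed hc hp hn h1 (hΨinv hr)
  have hb := betaL_le D.hL hcl
  rw [hom_tm hc hn h1, integral_tm hc hn r D.hL.cont] at hb
  refine hb.trans ?_
  -- pointwise estimate
  have hpt : ∀ x, Ψ x • LagK K A V (x, r) ≤ Ψ x * (K r + CA * ‖r - t • ω‖ -
      Λ * (fM - 2 * ε)) + Λ * (fderiv ℝ χ x ω * Ψ x) := by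
    intro x
    have e1 : LagK K A V (x, r) ≤ K r + CA * ‖r - t • ω‖ - Λ * (fl x - ε) +
        Λ * fderiv ℝ χ x ω := by
      unfold LagK
      simp only
      have h6 := (abs_le.1 (D.h5 x)).1
      have h7 : inner ℝ (A x) r = inner ℝ (A x) (r - t • ω) + t * inner ℝ (A x) ω := by
        rw [inner_sub_right, inner_smul_right]
        ring
      have h8 : inner ℝ (A x) (r - t • ω) ≤ CA * ‖r - t • ω‖ :=
        (real_inner_le_norm _ _).trans (mul_le_mul_of_nonneg_right (D.hCA x) (norm_nonneg _))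
      rw [h7]
      linarith
    have e2 : Ψ x * (Λ * (fM - ε)) ≤ Ψ x * (Λ * fl x) := by
      rcases le_or_gt (fl x - (fM - ε)) 0 with h | h
      · have : Ψ x = 0 := by
          simp only [hΨ, hΨ₀, max_eq_left h, mul_zero]
        rw [this]
        simp
      · exact mul_le_mul_of_nonneg_left (mul_le_mul_of_nonneg_left (by linarith) D.hΛ.le) (hn x)
    have e3 := mul_le_mul_of_nonneg_left e1 (hn x)
    rw [smul_eq_mul]
    nlinarith
  have hdc : Continuous (fderiv ℝ χ) := D.hχ.continuous_fderiv one_ne_zero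
  have hi1 : Integrable (fun x => Ψ x • LagK K A V (x, r)) (lam b) := by
    refine Per.integrable (b := b) ?_ ?_
    · intro i x
      simp only [LagK, hp i x, D.hAp i x, D.hVp i x]
    · exact hc.smul (D.hL.cont.comp (continuous_id.prodMk continuous_const))
  have hi2 : Integrable (fun x => fderiv ℝ χ x ω * Ψ x) (lam b) := by
    refine Per.integrable (b := b) ?_ ?_
    · intro i x
      simp only [hp i x, D.hχp.fderiv i x]
    · exact (hdc.clm_apply continuous_const).mul hc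
  have hi3 : Integrable Ψ (lam b) := hp.integrable hc
  calc ∫ x, Ψ x • LagK K A V (x, r) ∂(lam b)
      ≤ ∫ x, (Ψ x * (K r + CA * ‖r - t • ω‖ - Λ * (fM - 2 * ε)) +
          Λ * (fderiv ℝ χ x ω * Ψ x)) ∂(lam b) :=
        integral_mono hi1 ((hi3.mul_const _).add (hi2.const_mul _)) hpt
    _ = _ := by
        rw [integral_add (hi3.mul_const _) (hi2.const_mul _), integral_mul_const, h1,
          integral_const_mul, inv_lemma D.hχ D.hχp hc hp (hΨinv D.hkω)]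
        ring

end

end

end Pool.Agent.EMK
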