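import Pool.Agent.EMK.EK1

/-!
EK2: the key lemma for Lagrangians `K (v) + A (x)·v - V (x)` (after H45/MatherKey2).
-/

set_option autoImplicit false
set_option linter.unusedSectionVars false
set_option linter.style.haveILetI false

open MeasureTheory Module Set Filter Topology

namespace Pool.Agent.EMK

open Pool.H45.Mather Pool.Agent.LRT

noncomputable section

variable {n : ℕ} {E : Type*} [NormedAddCommGroup E] [InnerProductSpace ℝ E] [FiniteDimensional ℝ E]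
  [MeasurableSpace E] [BorelSpace E] {b : Basis (Fin n) ℝ E}

variable {K : E → ℝ} {A : E → E} {V : E → ℝ} {k : Fin n → ℤ} {ω p : E} {χ fl : E → ℝ}
  {t Λ ε CA Gχ CF fM La m ρ : ℝ}

/-- the part of the gradient orthogonal to `k` -/
lemma DatK.grad (D : DatK b K A V k ω p χ fl t Λ ε CA Gχ CF fM La m ρ) {c e : E} {θ : ℝ}
    (hc : c = p + e + θ • rv b k) (he : lin b k e = 0)
    (hgr : ∀ r, betaL b (LagK K A V) (t • ω) + inner ℝ c (r - t • ω) ≤ betaL b (LagK K A V) r) :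
    ‖e‖ ^ 2 ≤ (La + 5) ^ 2 * (Λ * ε * m) := by
  have hm := D.hm
  have hLa := D.hLa
  have hLa0 := D.La0
  have hΛ := D.hΛ
  have hε := D.hε
  have hP : 0 < Λ * ε * m := by positivity
  have hCA0 := D.CA0
  set S : ℝ := √(Λ * ε * m) with hS
  have hS0 : 0 < S := Real.sqrt_pos.2 hP
  have hSS : S ^ 2 = Λ * ε * m := Real.sq_sqrt hP.le
  have hCAS : CA ≤ S := by
    refine (pow_le_pow_iff_left₀ hCA0 hS0.le two_ne_zero).1 ?_
    rw [hSS]
    have h1 := D.h2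
    nlinarith [sq_nonneg CA]
  rw [← hSS, ← mul_pow]
  refine pow_le_pow_left₀ (norm_nonneg _) ?_ 2
  rcases eq_or_ne e 0 with h0 | h0
  · rw [h0, norm_zero]
    positivity
  have hN : 0 < ‖e‖ := norm_pos_iff.2 h0
  set s : ℝ := S / m with hs
  have hs0 : 0 < s := div_pos hS0 hm
  have hsρ : s ≤ ρ := by
    refine (pow_le_pow_iff_left₀ hs0.le D.hρ.le two_ne_zero).1 ?_
    rw [hs, div_pow, hSS, div_le_iff₀ (by positivity)]
    have h1 := D.h6
    have h2 : ε * Λ ≤ m * ρ ^ 2 := by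
      have h3 : ε * Λ ≤ La * ε * Λ := by
        have : 0 < ε * Λ := mul_pos hε hΛ
        nlinarith
      linarith
    nlinarith
  set z : E := (s / ‖e‖) • e with hz
  have hzn : ‖z‖ = s := by
    rw [hz, norm_smul, Real.norm_eq_abs, abs_of_pos (by positivity)]
    field_simp
  have hzk : lin b k (t • ω + z) = 0 := by
    rw [map_add, map_smul, D.hkω, hz, map_smul, he, smul_zero, smul_zero, add_zero]
  have h1 := hgr (t • ω + z)
  have h2 := D.upper hzk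
  have h3 := D.lower
  have h4 := D.hK.up z (hzn.le.trans hsρ)
  have e1 : t • ω + z - t • ω = z := by abel
  rw [e1] at h1 h2
  rw [hzn] at h2 h4
  have h5 : inner ℝ c z = inner ℝ p z + s * ‖e‖ := by
    rw [hc, inner_add_left, inner_add_left, inner_smul_left, inner_rv]
    have h6 : lin b k z = 0 := by rw [hz, map_smul, he, smul_zero]
    rw [h6, mul_zero, add_zero, hz, inner_smul_right, inner_smul_right, real_inner_self_eq_norm_sq]
    field_simp
  rw [h5] at h1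
  have h6 : s * ‖e‖ ≤ La * m * s ^ 2 + CA * s + 4 * (Λ * ε) := by linarith
  have h7 : m * s = S := by rw [hs]; field_simp
  have h8 : Λ * ε = S * s := by
    have h9 : S * S = Λ * ε * m := by rw [← hSS]; ring
    have h10 : (Λ * ε) * m = (S * s) * m := by rw [← h9, hs]; field_simp
    exact mul_right_cancel₀ hm.ne' h10
  have h9 : s * ‖e‖ ≤ s * ((La + 5) * S) := by
    have h10 : La * m * s ^ 2 = s * (La * S) := by
      rw [← h7]; ring
    have h11 : CA * s ≤ s * S := by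
      rw [mul_comm]
      exact mul_le_mul_of_nonneg_left hCAS hs0.le
    rw [h10, h8] at h6
    nlinarith
  exact le_of_mul_le_mul_left h9 hs0

lemma DatK.speed (D : DatK b K A V k ω p χ fl t Λ ε CA Gχ CF fM La m ρ) {c e : E} {θ α σ : ℝ}
    (hc : c = p + e + θ • rv b k) (he : ‖e‖ ^ 2 ≤ (La + 5) ^ 2 * (Λ * ε * m))
    (hα : α ≤ inner ℝ p (t • ω) + inner ℝ e (t • ω) - K (t • ω) + Λ * (fM + 2 * ε))
    (hσ : σ ≤ Λ) {φ : E → ℝ} (hsub : SubL (LagK K A V) c (α + σ) φ) {ζ : E} (hζ : lin b k ζ = 0)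
    (hζρ : ‖ζ‖ ≤ ρ) (x : E) :
    fderiv ℝ φ x (t • ω + ζ) ≤ Λ * (|fM| + CF + 1 + (La + 8) ^ 2 * ε) + (La + 1) * m * ‖ζ‖ ^ 2 := by
  have hm := D.hm
  have hLa := D.hLa
  have hΛ := D.hΛ
  have hε := D.hε
  have h1 := hsub x (t • ω + ζ)
  have h2 : inner ℝ c (t • ω + ζ) = inner ℝ p (t • ω) + inner ℝ e (t • ω) + inner ℝ p ζ + inner ℝ e ζ := by
    rw [hc, inner_add_left, inner_add_left, inner_smul_left, inner_rv, map_add, map_smul, D.hkω, hζ,
      inner_add_right, inner_add_right]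
    simp
    ring
  have h3 := D.hK.up ζ hζρ
  have h4 : inner ℝ (A x) (t • ω + ζ) = t * inner ℝ (A x) ω + inner ℝ (A x) ζ := by
    rw [inner_add_right, inner_smul_right]
  have h5 := (abs_le.1 (D.h4 x)).1
  have h6 : inner ℝ (A x) ζ ≤ CA * ‖ζ‖ :=
    (real_inner_le_norm _ _).trans (mul_le_mul_of_nonneg_right (D.hCA x) (norm_nonneg _))
  have h7 : -inner ℝ e ζ ≤ ‖e‖ * ‖ζ‖ := by
    have := (abs_le.1 (abs_real_inner_le_norm e ζ)).1
    linarith
  have h8 : fM ≤ |fM| := le_abs_self _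
  have h9 := D.h2
  have hCA0 := D.CA0
  have h10 : Λ * fM ≤ Λ * |fM| := mul_le_mul_of_nonneg_left h8 hΛ.le
  set z := ‖ζ‖ with hz
  set N := ‖e‖ with hN
  have h11 : N * z + CA * z ≤ m * z ^ 2 + (N ^ 2 + CA ^ 2) / (2 * m) := by
    rw [← sub_nonneg]
    have e1 : m * z ^ 2 + (N ^ 2 + CA ^ 2) / (2 * m) - (N * z + CA * z) =
        ((m * z - N) ^ 2 + (m * z - CA) ^ 2) / (2 * m) := by
      field_simp
      ring
    rw [e1]
    positivity
  have h12 : (N ^ 2 + CA ^ 2) / (2 * m) ≤ Λ * ((La + 5) ^ 2 * ε + ε) := by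
    rw [div_le_iff₀ (by positivity)]
    have h13 : CA ^ 2 ≤ Λ * ε * m := by nlinarith [sq_nonneg CA]
    have h14 : 0 ≤ (La + 5) ^ 2 * (Λ * ε * m) := by positivity
    have h15 : 0 ≤ Λ * ε * m := by positivity
    nlinarith
  have h16 : Λ * ((La + 5) ^ 2 * ε + ε) + 2 * (Λ * ε) ≤ Λ * ((La + 8) ^ 2 * ε) := by
    have h17 : 0 < Λ * ε := mul_pos hΛ hε
    have h18 : (La + 5) ^ 2 + 3 ≤ (La + 8) ^ 2 := by nlinarith
    nlinarith
  unfold LagK at h1
  simp only at h1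
  rw [h2, h4] at h1
  nlinarith

lemma DatK.osc (D : DatK b K A V k ω p χ fl t Λ ε CA Gχ CF fM La m ρ) {c e : E} {θ α σ : ℝ}
    (hc : c = p + e + θ • rv b k) (he : ‖e‖ ^ 2 ≤ (La + 5) ^ 2 * (Λ * ε * m))
    (hα : α ≤ inner ℝ p (t • ω) + inner ℝ e (t • ω) - K (t • ω) + Λ * (fM + 2 * ε))
    (hσ : σ ≤ Λ) {φ : E → ℝ} (hφ : ContDiff ℝ 1 φ) (hφp : Per b φ)
    (hsub : SubL (LagK K A V) c (α + σ) φ) {r₀ Lr τ : ℝ} (hr0 : 0 < r₀)
    (hr1 : r₀ * ‖lin b k‖ < 1)
    (hdens : ∀ z, lin b k z = 0 → ∃ r, 0 ≤ r ∧ r ≤ Lr ∧ ∃ m, ‖r • ω - z - lat b m‖ ≤ r₀)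
    (hτ : 0 < τ) (hτt : Lr ≤ t * τ / 2) (hτρ : 2 * r₀ / τ ≤ ρ) {x y : E} (hxy : lin b k x = lin b k y) :
    φ y - φ x ≤ τ * (Λ * (|fM| + CF + 1 + (La + 8) ^ 2 * ε)) + 2 * ((La + 1) * m) * r₀ ^ 2 / τ := by
  have ht := D.ht
  have hm := D.hm
  have hLa := D.La0
  obtain ⟨r, hr, hrL, mm, hmm⟩ := hdens (y - x - (τ / 2) • (t • ω)) (by
    rw [map_sub, map_sub, map_smul, map_smul, D.hkω, hxy]; simp)
  set T : ℝ := τ / 2 + r / t with hT
  have hT0 : τ / 2 ≤ T := by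
    rw [hT]
    have : 0 ≤ r / t := div_nonneg hr ht.le
    linarith
  have hT1 : T ≤ τ := by
    have : r / t ≤ τ / 2 := by
      rw [div_le_iff₀ ht]
      linarith
    rw [hT]; linarith
  have hTpos : 0 < T := lt_of_lt_of_le (by linarith) hT0
  set δ : E := y + lat b mm - x - T • (t • ω) with hδ
  have hδn : ‖δ‖ ≤ r₀ := by
    have e1 : δ = -(r • ω - (y - x - (τ / 2) • (t • ω)) - lat b mm) := by
      rw [hδ, hT, add_smul]
      have : (r / t) • (t • ω) = r • ω := by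
        rw [smul_smul, div_mul_cancel₀ _ ht.ne']
      rw [this]
      abel
    rw [e1, norm_neg]
    exact hmm
  have hδk : lin b k δ = 0 := by
    have e1 : lin b k δ = ((∑ i, k i * mm i : ℤ) : ℝ) := by
      rw [hδ, map_sub, map_sub, map_add, map_smul, map_smul, D.hkω, hxy, lin_lat]
      simp
    have e2 : |lin b k δ| < 1 := by
      refine lt_of_le_of_lt ?_ hr1
      have := (lin b k).le_opNorm δ
      rw [Real.norm_eq_abs] at this
      refine this.trans ?_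
      rw [mul_comm]
      exact mul_le_mul_of_nonneg_right hδn (norm_nonneg _)
    rw [e1] at e2 ⊢
    have e3 : |(∑ i, k i * mm i : ℤ)| < 1 := by exact_mod_cast e2
    have e4 : (∑ i, k i * mm i : ℤ) = 0 := Int.abs_lt_one_iff.1 e3
    rw [e4]; simp
  set ζ : E := T⁻¹ • δ with hζ
  have hζk : lin b k ζ = 0 := by rw [hζ, map_smul, hδk, smul_zero]
  have hζn : ‖ζ‖ ≤ 2 * r₀ / τ := by
    rw [hζ, norm_smul, Real.norm_eq_abs, abs_of_pos (inv_pos.2 hTpos), inv_mul_le_iff₀ hTpos]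
    have h1 : τ / 2 * (2 * r₀ / τ) ≤ T * (2 * r₀ / τ) := mul_le_mul_of_nonneg_right hT0 (by positivity)
    have h2 : τ / 2 * (2 * r₀ / τ) = r₀ := by field_simp
    linarith
  have hsp := fun x => D.speed hc he hα hσ hsub hζk (hζn.trans hτρ) x
  have hseg := seg_bound hφ hsp hTpos.le x
  have hend : x + T • (t • ω + ζ) = y + lat b mm := by
    rw [smul_add, hζ, smul_inv_smul₀ hTpos.ne', hδ]
    abel
  rw [hend, hφp.add_lat] at hseg
  refine hseg.trans ?_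
  have hC2 : 0 ≤ Λ * (|fM| + CF + 1 + (La + 8) ^ 2 * ε) := by
    have h1 : 0 ≤ Λ * CF := (abs_nonneg _).trans (D.h4 0)
    have h2 : 0 ≤ Λ * |fM| := mul_nonneg D.hΛ.le (abs_nonneg _)
    have h3 : 0 ≤ Λ * ((La + 8) ^ 2 * ε) := mul_nonneg D.hΛ.le (mul_nonneg (sq_nonneg _) D.hε.le)
    have h4 := D.hΛ
    nlinarith
  have h5 : T * ((La + 1) * m * ‖ζ‖ ^ 2) ≤ 2 * ((La + 1) * m) * r₀ ^ 2 / τ := by
    rw [hζ, norm_smul, Real.norm_eq_abs, abs_of_pos (inv_pos.2 hTpos), mul_pow]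
    have h6 : T * ((La + 1) * m * (T⁻¹ ^ 2 * ‖δ‖ ^ 2)) = (La + 1) * m * (‖δ‖ ^ 2 / T) := by
      field_simp
    have h8 : ‖δ‖ ^ 2 / T ≤ 2 * r₀ ^ 2 / τ := by
      rw [div_le_div_iff₀ hTpos hτ]
      have h7 : ‖δ‖ ^ 2 ≤ r₀ ^ 2 := pow_le_pow_left₀ (norm_nonneg _) hδn 2
      nlinarith [sq_nonneg r₀, sq_nonneg ‖δ‖]
    rw [h6]
    calc _ ≤ (La + 1) * m * (2 * r₀ ^ 2 / τ) := mul_le_mul_of_nonneg_left h8 (by positivity)
      _ = _ := by ring
  rw [mul_add]
  exact add_le_add (mul_le_mul_of_nonneg_right hT1 hC2) h5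

theorem DatK.key (D : DatK b K A V k ω p χ fl t Λ ε CA Gχ CF fM La m ρ) (hk : k ≠ 0) {u : Fin n → ℤ}
    (hu : lin b k (lat b u) = 1) {η s₁ w : ℝ} (hεη : (La * ((La + 5) ^ 2 + 1) + 6) * ε ≤ η)
    (hηρ : 4 * La * η * Λ ≤ m * ρ ^ 2)
    (hw0 : 0 < w) (hw1 : w < 1)
    (hslab : ∀ x, 0 < Int.fract (lin b k x - s₁) → Int.fract (lin b k x - s₁) < w →
      fl x ≤ fM - η)
    {r₀ Lr τ : ℝ} (hr0 : 0 < r₀) (hr1 : r₀ * ‖lin b k‖ < 1)
    (hdens : ∀ z, lin b k z = 0 → ∃ r, 0 ≤ r ∧ r ≤ Lr ∧ ∃ m, ‖r • ω - z - lat b m‖ ≤ r₀)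
    (hτ : 0 < τ) (hτt : Lr ≤ t * τ / 2) (hτρ : 2 * r₀ / τ ≤ ρ) {Bχ : ℝ} (hB : ∀ x, |χ x| ≤ Bχ)
    (hbig : 2 * (Λ / t * Bχ + (τ * (Λ * (|fM| + CF + 1 + (La + 8) ^ 2 * ε)) +
      2 * ((La + 1) * m) * r₀ ^ 2 / τ)) < √(Λ * m * η / La) / ‖rv b k‖ * w) :
    ¬ DifferentiableAt ℝ (betaL b (LagK K A V)) (t • ω) := by
  intro hd
  obtain ⟨c, hc1, hc2⟩ := exists_gradL D.hL hd
  have ht := D.ht
  have hm := D.hm
  have hLa := D.hLa
  have hLa0 := D.La0
  have hΛ0 := D.hΛ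
  have hε := D.hε
  obtain ⟨hγ0, hγ1⟩ := D.gam
  have hη : 0 < η := by
    refine lt_of_lt_of_le ?_ hεη
    positivity
  set Q := rv b k with hQ
  have hQne : Q ≠ 0 := by
    intro h0
    have : lin b k (lat b u) = 0 := by rw [← inner_rv, ← hQ, h0, inner_zero_left]
    rw [hu] at this
    exact one_ne_zero this
  have hQn : 0 < ‖Q‖ := norm_pos_iff.2 hQne
  set θ : ℝ := inner ℝ Q (c - p) / ‖Q‖ ^ 2 with hθ
  set e : E := (c - p) - θ • Q with he
  have hcc : c = p + e + θ • Q := by rw [he]; abel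
  have hQe : inner ℝ Q e = 0 := by
    rw [he, inner_sub_right, inner_smul_right, real_inner_self_eq_norm_sq, hθ]
    field_simp
    ring
  have hle : lin b k e = 0 := by rw [← inner_rv]; exact hQe
  have hQh : inner ℝ Q (t • ω) = 0 := by
    rw [hQ, inner_rv, map_smul, D.hkω, smul_zero]
  have hch : inner ℝ c (t • ω) = inner ℝ p (t • ω) + inner ℝ e (t • ω) := by
    rw [hcc, inner_add_left, inner_add_left, inner_smul_left, hQh]
    simp
  set α : ℝ := inner ℝ c (t • ω) - betaL b (LagK K A V) (t • ω) with hα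
  have hstar : StarL b (LagK K A V) c α := by
    refine starL_of_le_beta D.hL fun r => ?_
    have := hc1 r
    rw [inner_sub_right] at this
    rw [hα]
    linarith
  have hlow := D.lower
  have hup := D.upper (r := t • ω) (by rw [map_smul, D.hkω, smul_zero])
  rw [sub_self, norm_zero, mul_zero, add_zero] at hup
  have he2 := D.grad hcc hle hc1
  have hα1 : α ≤ inner ℝ p (t • ω) + inner ℝ e (t • ω) - K (t • ω) + Λ * (fM + 2 * ε) := by
    rw [hα, hch]
    linarith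
  have hα2 : inner ℝ p (t • ω) + inner ℝ e (t • ω) - K (t • ω) + Λ * (fM - 2 * ε) ≤ α := by
    rw [hα, hch]
    linarith
  set a : ℝ := √(Λ * m * η / La) / ‖Q‖ with ha
  have haQ : a * ‖Q‖ = √(Λ * m * η / La) := by
    rw [ha]
    field_simp
  have haQ2 : (a * ‖Q‖) ^ 2 = Λ * m * η / La := by
    rw [haQ, Real.sq_sqrt (by positivity)]
  have hW : ∀ (s : ℝ), s ^ 2 = a ^ 2 → ∀ x, 0 < Int.fract (lin b k x - s₁) →
      Int.fract (lin b k x - s₁) < w → ∀ v, inner ℝ (p + e + s • rv b k) v +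
        fderiv ℝ (fun x => Λ / t * χ x) x v ≤ LagK K A V (x, v) + α := by
    intro s hs x hx0 hx1 v
    set γ := Λ / t * Gχ + CA with hγ
    have hsQ : ‖s • Q‖ ^ 2 = Λ * m * η / La := by
      rw [norm_smul, mul_pow, Real.norm_eq_abs, sq_abs, hs, ← mul_pow, haQ2]
    have h2 : ‖e + s • Q‖ ^ 2 = ‖e‖ ^ 2 + Λ * m * η / La := by
      rw [norm_add_sq_real, inner_smul_right, real_inner_comm, hQe, hsQ]
      ring
    have h3 : (‖e + s • Q‖ + γ) ^ 2 ≤ 2 * ((La + 5) ^ 2 * (Λ * ε * m) + Λ * m * η / La) + 2 * (Λ * ε * m) := by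
      have h4 : (‖e + s • Q‖ + γ) ^ 2 ≤ 2 * ‖e + s • Q‖ ^ 2 + 2 * γ ^ 2 := by
        nlinarith [sq_nonneg (‖e + s • Q‖ - γ)]
      have h5 : γ ^ 2 ≤ Λ * ε * m := by
        have h6 := D.h3
        nlinarith [sq_nonneg γ]
      linarith
    have h6 : La / (4 * m) * (‖e + s • Q‖ + γ) ^ 2 ≤ Λ * (η / 2 + La / 2 * ((La + 5) ^ 2 + 1) * ε) := by
      calc _ ≤ La / (4 * m) * (2 * ((La + 5) ^ 2 * (Λ * ε * m) + Λ * m * η / La) + 2 * (Λ * ε * m)) :=
            mul_le_mul_of_nonneg_left h3 (by positivity)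
        _ = _ := by
          field_simp
          ring
    have h7 : Λ * (η / 2 + La / 2 * ((La + 5) ^ 2 + 1) * ε) ≤ Λ * (η - 3 * ε) := by
      refine mul_le_mul_of_nonneg_left ?_ hΛ0.le
      nlinarith
    have h8 : ‖e + s • Q‖ + γ ≤ m / La * ρ := by
      have h9 : (‖e + s • Q‖ + γ) ^ 2 ≤ (m / La * ρ) ^ 2 := by
        have h10 : La / (4 * m) * (‖e + s • Q‖ + γ) ^ 2 ≤ Λ * η := by
          have : Λ * (η - 3 * ε) ≤ Λ * η := mul_le_mul_of_nonneg_left (by linarith) hΛ0.le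
          linarith
        rw [div_mul_eq_mul_div, div_le_iff₀ (by positivity)] at h10
        have e1 : (m / La * ρ) ^ 2 = m * (m * ρ ^ 2) / (La * La) := by field_simp
        rw [e1, le_div_iff₀ (by positivity)]
        have h11 : m * (4 * La * η * Λ) ≤ m * (m * ρ ^ 2) := mul_le_mul_of_nonneg_left hηρ hm.le
        have h12 : La * (La * (‖e + s • Q‖ + γ) ^ 2) ≤ La * (Λ * η * (4 * m)) :=
          mul_le_mul_of_nonneg_left h10 hLa0.le
        nlinarith
      exact (pow_le_pow_iff_left₀ (by positivity) (by have := D.hρ; positivity) two_ne_zero).1 h9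
    have h1 := D.ptw h8 x v
    have e1 : p + (e + s • Q) = p + e + s • rv b k := by rw [hQ]; abel
    have e2 : inner ℝ (e + s • Q) (t • ω) = inner ℝ e (t • ω) := by
      rw [inner_add_left, inner_smul_left, hQh, mul_zero, add_zero]
    rw [e1, e2] at h1
    have h9 : Λ * (fl x + ε) ≤ Λ * (fM - η + ε) :=
      mul_le_mul_of_nonneg_left (by linarith [hslab x hx0 hx1]) hΛ0.le
    linarith
  have hE2 : ∀ σ, 0 < σ → σ ≤ Λ → ∀ φ : E → ℝ, ContDiff ℝ 1 φ → Per b φ →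
      SubL (LagK K A V) c (α + σ) φ → ∀ x y, (∃ N : ℤ, lin b k x - lin b k y = N) → φ x - φ y ≤
        τ * (Λ * (|fM| + CF + 1 + (La + 8) ^ 2 * ε)) + 2 * ((La + 1) * m) * r₀ ^ 2 / τ := by
    rintro σ _ hσ φ hφ hφp hsub x y ⟨N, hN⟩
    have h1 := D.osc hcc he2 hα1 hσ hφ hφp hsub hr0 hr1 hdens hτ hτt hτρ
      (x := y + lat b (fun i => N * u i)) (y := x) (by
        rw [map_add]
        have : lin b k (lat b (fun i => N * u i)) = N := by
          rw [lin_lat] at hu ⊢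
          have : (∑ i, k i * (N * u i) : ℤ) = N * ∑ i, k i * u i := by
            rw [Finset.mul_sum]
            exact Finset.sum_congr rfl fun i _ => by ring
          rw [this]
          push_cast at hu ⊢
          rw [hu, mul_one]
        rw [this]
        linarith)
    rwa [hφp.add_lat] at h1
  obtain ⟨δ, hδ, hstar'⟩ := coreL D.hL hk (c₀ := p + e) (θ := θ) hcc hstar
    (χ := fun x => Λ / t * χ x) (contDiff_const.mul D.hχ) (D.hχp.comp (fun y => Λ / t * y))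
    (E₁ := Λ / t * Bχ) (fun x => by
      rw [abs_mul, abs_of_pos (div_pos hΛ0 ht)]
      exact mul_le_mul_of_nonneg_left (hB x) (div_pos hΛ0 ht).le)
    (s₁ := s₁) (w := w) (a := a) hw0 hw1 (hW a rfl) (hW (-a) (by ring)) (σ₀ := Λ) hΛ0 hE2 hbig
  have heq := hc2 (c + δ • Q) fun r => by
    have h1 := hstar'.le_beta r
    rw [inner_sub_right]
    have h2 : inner ℝ (c + δ • Q) (t • ω) = inner ℝ c (t • ω) := by
      rw [inner_add_left, inner_smul_left, hQh]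
      simp
    rw [h2]
    rw [hα] at h1
    linarith
  have : δ • Q = 0 := by
    have := congrArg (fun z => z - c) heq
    simpa using this
  rcases smul_eq_zero.1 this with h | h
  · exact hδ h
  · exact hQne h

end

end Pool.Agent.EMK
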