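import Pool.Agent.EMK.EK2
import Pool.Agent.H45.MatherGen

/-!
EK3: non-differentiability of beta at the points `t ω` for Lagrangians `K (v) + A (x)·v - V (x)` (after H45/MatherContra).
-/

set_option autoImplicit false
set_option linter.unusedSectionVars false
set_option linter.style.haveILetI false

open MeasureTheory Module Set Filter Topology

namespace Pool.Agent.EMK

open Pool.H45.Mather Pool.Agent.LRT

noncomputable section

variable {n : ℕ} {E : Type*} [NormedAddCommGroup E] [InnerProductSpace ℝ E] [FiniteDimensional ℝ E]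
  [MeasurableSpace E] [BorelSpace E] {b : Basis (Fin n) ℝ E}

/-- purely numerical choice of the parameters -/
lemma numK {S s a₁ w C₂ c₁ r₀ B t La : ℝ} (hS : 0 < S) (hs : 0 < s) (ha : 0 < a₁ * w) (hC : 0 < C₂) (hLa : 1 ≤ La)
    (hc : c₁ = a₁ * w / (16 * C₂)) (hr : r₀ ^ 2 ≤ a₁ * w * c₁ / (32 * (La + 1))) (ht : 0 < t)
    (hB : 16 * B / (a₁ * w) * S ≤ t * s) :
    2 * (S ^ 2 / t * B + (c₁ * s / S * (S ^ 2 * C₂) + 2 * ((La + 1) * s ^ 2) * r₀ ^ 2 / (c₁ * s / S))) <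
      S * s * (a₁ * w) := by
  have hc0 : 0 < c₁ := by rw [hc]; positivity
  have h1 : S ^ 2 / t * B ≤ S * s * (a₁ * w) / 16 := by
    rw [div_mul_eq_mul_div, div_le_iff₀ ht]
    have : 16 * B * S ≤ t * s * (a₁ * w) := by
      rw [div_mul_eq_mul_div, div_le_iff₀ ha] at hB
      exact hB
    nlinarith
  have h2 : c₁ * s / S * (S ^ 2 * C₂) = S * s * (a₁ * w) / 16 := by
    rw [hc]; field_simp
  have h3 : 2 * ((La + 1) * s ^ 2) * r₀ ^ 2 / (c₁ * s / S) ≤ S * s * (a₁ * w) / 16 := by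
    rw [div_le_iff₀ (by positivity)]
    have : S * s * (a₁ * w) / 16 * (c₁ * s / S) = s ^ 2 * (a₁ * w * c₁ / 16) := by field_simp
    rw [this]
    rw [le_div_iff₀ (by positivity)] at hr
    have h4 : 0 ≤ s ^ 2 := sq_nonneg s
    nlinarith
  have h4 : 0 < S * s * (a₁ * w) := by positivity
  rw [h2]
  linarith

theorem contraK {K : E → ℝ} {A : E → E} {V : E → ℝ} (hL : TonL b (LagK K A V)) (hA : Continuous A) (hAp : Per b A)
    (hV : Continuous V) (hVp : Per b V) {CA : ℝ} (hCA : ∀ x, ‖A x‖ ≤ CA)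
    {F : E → ℝ} (hFp : Per b F) (hFc : Continuous F) {k u : Fin n → ℤ}
    (hu : ∑ i, k i * u i = 1) {ω : E} (hω : lin b k ω = 0)
    (hgen : ∀ m : Fin n → ℤ, lin b m ω = 0 → ∃ j : ℤ, ∀ i, m i = j * k i)
    {Ψ : E → ℝ} (hΨ : Continuous Ψ) (hΨp : Per b Ψ) (hΨ1 : ∀ x, |Ψ x| ≤ 1)
    (hΨk : ∀ x y, lin b k x = lin b k y → Ψ x = Ψ y) (hΨ0 : ∫ x, Ψ x ∂(lam b) = 0)
    (hFΨ : ∫ x, F x * Ψ x ∂(lam b) ≠ 0) {La : ℝ} (hLa : 1 ≤ La) {p : ℝ → E} {Λ m ρ : ℝ → ℝ}
    (H0 : ∀ᶠ t in atTop, 0 < Λ t ∧ 0 < m t ∧ 0 < ρ t ∧ LocK K (t • ω) (p t) La (m t) (ρ t))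
    (H2 : ∀ δ : ℝ, 0 < δ → ∀ᶠ t in atTop, ∀ x,
      |V x - t * inner ℝ (A x) ω - Λ t * F x| ≤ Λ t * δ)
    (H4 : ∀ G ε : ℝ, 0 ≤ G → 0 < ε → ∀ᶠ t in atTop, (Λ t / t * G + CA) ^ 2 ≤ Λ t * ε * m t)
    (H5 : ∀ C : ℝ, ∀ᶠ t in atTop, C * Λ t ≤ m t * ρ t ^ 2)
    (H6 : ∀ C : ℝ, ∀ᶠ t in atTop, C * √(Λ t) ≤ t * √(m t)) :
    ∀ᶠ t : ℝ in atTop, ¬ DifferentiableAt ℝ (betaL b (LagK K A V)) (t • ω) := by
  have hdec : ∀ F : E → ℝ, Per b F → Continuous F → Dec b k ω F := fun F h1 h2 =>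
    dec_of_continuous hgen h1 h2
  have hLa0 : 0 < La := lt_of_lt_of_le one_pos hLa
  have hu' : lin b k (lat b u) = 1 := by rw [lin_lat, hu]; simp
  have hk : k ≠ 0 := by
    rintro rfl
    simp at hu
  set a := |∫ x, F x * Ψ x ∂(lam b)| with ha
  have ha0 : 0 < a := abs_pos.2 hFΨ
  set η := a / 2 with hη
  have hη0 : 0 < η := by linarith
  have hT : 43 ≤ La * ((La + 5) ^ 2 + 1) + 6 := by nlinarith
  set ε := η / (La * ((La + 5) ^ 2 + 1) + 6) with hε
  have hε0 : 0 < ε := by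
    rw [hε]
    exact div_pos hη0 (by linarith)
  have hεη : (La * ((La + 5) ^ 2 + 1) + 6) * ε = η := by
    rw [hε, mul_div_cancel₀]
    linarith
  have hεa : ε < a := by nlinarith
  obtain ⟨χ, fl, hχ, hχp, hfc, hfp, hfl, hap⟩ := hdec F hFp hFc (ε / 2) (by linarith)
  obtain ⟨xM, hxM⟩ := hfp.exists_max hfc
  set fM := fl xM with hfM
  have hdc : Continuous (fderiv ℝ χ) := hχ.continuous_fderiv one_ne_zero
  -- the minimum is small
  obtain ⟨x₀, hx₀⟩ : ∃ x₀, fl x₀ < fM - a / 2 := by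
    by_contra hcon
    push Not at hcon
    have i1 : Integrable (fun x => F x * Ψ x) (lam b) :=
      (hFp.comp₂ hΨp (· * ·)).integrable (hFc.mul hΨ)
    have i2 : Integrable (fun x => fderiv ℝ χ x ω * Ψ x) (lam b) := by
      refine Per.integrable (b := b) ?_ ((hdc.clm_apply continuous_const).mul hΨ)
      intro i x
      simp only [hχp.fderiv i x, hΨp i x]
    have i3 : Integrable (fun x => fM * Ψ x) (lam b) := (hΨp.integrable hΨ).const_mul _
    have hz : ∫ x, fderiv ℝ χ x ω * Ψ x ∂(lam b) = 0 := by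
      refine inv_lemma hχ hχp hΨ hΨp fun τ x => ?_
      apply hΨk
      rw [map_add, map_smul, hω]; simp
    have hsum : ∫ x, F x * Ψ x ∂(lam b) =
        ∫ x, (F x * Ψ x + fderiv ℝ χ x ω * Ψ x - fM * Ψ x) ∂(lam b) := by
      have i12 : Integrable (fun x => F x * Ψ x + fderiv ℝ χ x ω * Ψ x) (lam b) := i1.add i2
      rw [integral_sub i12 i3, integral_add i1 i2, hz, integral_const_mul, hΨ0]
      ring
    have hbd : ∀ x, ‖F x * Ψ x + fderiv ℝ χ x ω * Ψ x - fM * Ψ x‖ ≤ ε / 2 + a / 2 := by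
      intro x
      have e1 : F x * Ψ x + fderiv ℝ χ x ω * Ψ x - fM * Ψ x =
          ((F x + fderiv ℝ χ x ω - fl x) + (fl x - fM)) * Ψ x := by ring
      rw [e1, norm_mul, Real.norm_eq_abs, Real.norm_eq_abs]
      have e2 : |(F x + fderiv ℝ χ x ω - fl x) + (fl x - fM)| ≤ ε / 2 + a / 2 := by
        refine (abs_add_le _ _).trans (add_le_add (hap x) ?_)
        rw [abs_le]
        constructor
        · linarith [hcon x]
        · linarith [hxM x]
      calc _ ≤ (ε / 2 + a / 2) * 1 :=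
            mul_le_mul e2 (hΨ1 x) (abs_nonneg _) (by linarith)
        _ = _ := by ring
    have h1 : ‖∫ x, (F x * Ψ x + fderiv ℝ χ x ω * Ψ x - fM * Ψ x) ∂(lam b)‖ ≤
        (ε / 2 + a / 2) * (lam b).real Set.univ :=
      norm_integral_le_of_norm_le_const (Eventually.of_forall hbd)
    rw [← hsum, probReal_univ, mul_one, Real.norm_eq_abs, ← ha] at h1
    linarith
  obtain ⟨s₁, w, hw0, hw1, hslab⟩ := exists_slab hu hfc hfp hfl hx₀
  obtain ⟨G, hG0, hG⟩ := hχp.fderiv.bdd hdc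
  obtain ⟨B, hB0, hB⟩ := hχp.bdd hχ.continuous
  obtain ⟨Fb, hFb0, hFb⟩ := hFp.bdd hFc
  have hKn : 0 < ‖rv b k‖ := by
    rw [norm_pos_iff]
    intro h0
    have : lin b k (lat b u) = 0 := by rw [← inner_rv, h0, inner_zero_left]
    rw [hu'] at this
    exact one_ne_zero this
  set a₁ := √(η / La) / ‖rv b k‖ with ha₁
  have ha₁0 : 0 < a₁ := by
    have : 0 < √(η / La) := Real.sqrt_pos.2 (div_pos hη0 hLa0)
    positivity
  have haw : 0 < a₁ * w := mul_pos ha₁0 hw0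
  set C₂ := |fM| + (Fb + 1) + 1 + (La + 8) ^ 2 * ε with hC₂
  have hC₂0 : 0 < C₂ := by
    have := abs_nonneg fM
    have h1 : 0 ≤ (La + 8) ^ 2 * ε := by positivity
    linarith
  set c₁ := a₁ * w / (16 * C₂) with hc₁
  have hc₁0 : 0 < c₁ := by positivity
  set r₀ := min (1 / (2 * (‖lin b k‖ + 1))) (√(a₁ * w * c₁ / (32 * (La + 1)))) with hr₀
  have hr0 : 0 < r₀ := lt_min (by positivity) (Real.sqrt_pos.2 (by positivity))
  have hr1 : r₀ * ‖lin b k‖ < 1 := by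
    have h1 : r₀ ≤ 1 / (2 * (‖lin b k‖ + 1)) := min_le_left _ _
    have h2 : r₀ * ‖lin b k‖ ≤ 1 / (2 * (‖lin b k‖ + 1)) * ‖lin b k‖ :=
      mul_le_mul_of_nonneg_right h1 (norm_nonneg _)
    have h3 : 1 / (2 * (‖lin b k‖ + 1)) * ‖lin b k‖ < 1 := by
      rw [div_mul_eq_mul_div, one_mul, div_lt_one (by positivity)]
      linarith [norm_nonneg (lin b k)]
    linarith
  have hr2 : r₀ ^ 2 ≤ a₁ * w * c₁ / (32 * (La + 1)) := by
    have h1 : r₀ ≤ √(a₁ * w * c₁ / (32 * (La + 1))) := min_le_right _ _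
    have h2 := pow_le_pow_left₀ hr0.le h1 2
    rwa [Real.sq_sqrt (by positivity)] at h2
  obtain ⟨Lr, hLr⟩ := exists_density hω hdec hr0
  have hev := (eventually_gt_atTop (0 : ℝ)).and (H0.and ((H2 (ε / 2) (by linarith)).and
    ((H2 1 one_pos).and ((H4 G (ε / La) hG0 (div_pos hε0 hLa0)).and ((H4 0 (ε / La) le_rfl (div_pos hε0 hLa0)).and
      ((H5 (La * ε)).and ((H5 (4 * La * η)).and ((H5 ((2 * r₀ / c₁) ^ 2)).and
      ((H6 (2 * Lr / c₁)).and (H6 (16 * B / (a₁ * w))))))))))))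
  filter_upwards [hev] with t htt
  obtain ⟨ht, ⟨hΛ0, hm0, hρ0, hK⟩, h2, h2', h4, h4', h5, h5', h5'', h6, h6'⟩ := htt
  set S := √(Λ t) with hS
  have hS0 : 0 < S := Real.sqrt_pos.2 hΛ0
  have hSS : S ^ 2 = Λ t := Real.sq_sqrt hΛ0.le
  set s := √(m t) with hs
  have hs0 : 0 < s := Real.sqrt_pos.2 hm0
  have hss : s ^ 2 = m t := Real.sq_sqrt hm0.le
  have D : DatK b K A V k ω (p t) χ fl t (Λ t) ε CA G (Fb + 1) fM La (m t) (ρ t) :=
    { hL := hL, hA := hA, hAp := hAp, hV := hV, hVp := hVp, hK := hK, hLa := hLa, hm := hm0, hρ := hρ0,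
      ht := ht, hΛ := hΛ0, hε := hε0, hkω := hω,
      hχ := hχ, hχp := hχp, hG := hG, hCA := hCA, hfc := hfc, hfp := hfp, hfl := hfl,
      hfM := hxM, hfM' := ⟨xM, rfl⟩,
      h2 := by
        rw [mul_zero, zero_add] at h4'
        have e1 := mul_le_mul_of_nonneg_left h4' hLa0.le
        have e2 : La * (Λ t * (ε / La) * m t) = Λ t * ε * m t := by field_simp
        linarith
      h3 := by
        have e1 := mul_le_mul_of_nonneg_left h4 hLa0.le
        have e2 : La * (Λ t * (ε / La) * m t) = Λ t * ε * m t := by field_simp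
        linarith
      h4 := by
        intro x
        have e1 := h2' x
        have e2 := hFb x
        rw [Real.norm_eq_abs] at e2
        have e3 : |Λ t * F x| ≤ Λ t * Fb := by
          rw [abs_mul, abs_of_pos hΛ0]
          exact mul_le_mul_of_nonneg_left e2 hΛ0.le
        rw [abs_le] at e1 e3 ⊢
        constructor <;> linarith [e1.1, e1.2, e3.1, e3.2]
      h5 := by
        intro x
        have e1 := h2 x
        have e2 := hap x
        have e3 : |Λ t * (F x + fderiv ℝ χ x ω - fl x)| ≤ Λ t * (ε / 2) := by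
          rw [abs_mul, abs_of_pos hΛ0]
          exact mul_le_mul_of_nonneg_left e2 hΛ0.le
        rw [abs_le] at e1 e3 ⊢
        constructor <;> linarith [e1.1, e1.2, e3.1, e3.2]
      h6 := h5 }
  refine D.key hk hu' (η := η) (s₁ := s₁) (w := w) hεη.le h5' hw0 hw1
    (fun x h h' => hslab x h h') hr0 hr1 hLr (τ := c₁ * s / S) (by positivity) ?_ ?_ (Bχ := B)
    (fun x => hB x) ?_
  · have e1 : 2 * Lr / c₁ * S ≤ t * s := h6
    rw [div_mul_eq_mul_div, div_le_iff₀ hc₁0] at e1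
    rw [mul_div_assoc', div_div, le_div_iff₀ (by positivity)]
    linarith
  · refine (pow_le_pow_iff_left₀ (by positivity) hρ0.le two_ne_zero).1 ?_
    have e1 : (2 * r₀ / (c₁ * s / S)) ^ 2 = (2 * r₀ / c₁) ^ 2 * Λ t / m t := by
      rw [← hSS, ← hss]
      field_simp
    rw [e1, div_le_iff₀ hm0]
    linarith
  · have e1 := numK (B := B) hS0 hs0 haw hC₂0 hLa hc₁ hr2 ht h6'
    rw [hSS, hss] at e1
    refine lt_of_lt_of_eq e1 ?_
    have e2 : Λ t * m t * η / La = Λ t * m t * (η / La) := by ring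
    rw [e2, Real.sqrt_mul (mul_pos hΛ0 hm0).le, Real.sqrt_mul hΛ0.le, ← hS, ← hs, ha₁]
    ring

end

end Pool.Agent.EMK
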