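import Pool.Agent.EMK.EKD

/-!
EKA (difficulty 3).  Growth of `∇k` for a kinetic energy `k` of order `d > 1`.

PROOF.  Write `μ p = ‖p‖ ^ (d - 2)`, `g p = gradient k p` (`inner (g p) q = fderiv k p q`: `LRW.tf1_inner`), `R' = max R 1`.
Convexity: `k p + inner (g p) q ≤ k (p + q)` (`LRW.line_taylor` with `m = 0`; the upper constant `M` from continuity on the compact
segment as in `LRW.hamT_of_hess`; `Kin.pos`).
`eka_cs`: for `R ≤ ‖p‖` and all `u, w`: `|fderiv ℝ (fderiv ℝ k) p u w| ≤ La μ(p) ‖u‖ ‖w‖`.  The bilinear form `B = fderiv ℝ (fderiv ℝ k) p` is symmetric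
(`ContDiffAt.isSymmSndFDerivAt`, `IsSymmSndFDerivAt.eq`, or `second_derivative_symmetric`), `4 B(u,w) = B(u+w,u+w) - B(u-w,u-w)`, both terms are
in `[0, 4 La μ]` for unit vectors (`Kin.gr`, `pos`); scale.
UPPER BOUND.  `∃ C₁ C₂ ≥ 0, ∀ p, ‖g p‖ ≤ C₁ + C₂ ‖p‖^(d-1)`: for `‖p‖ ≤ R'` by compactness (continuity of `g`).  For `‖p‖ = r > R'`, `u = p/r`: the curve
`s ↦ fderiv k (s u)`, `s ∈ [R', r]`, has derivative `fderiv (fderiv k) (s u) u` of norm `≤ La s^(d-2)` (`eka_cs`, `opNorm_le_bound`), so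
`‖fderiv k p‖ ≤ C₁ + La (r^(d-1) - R'^(d-1))/(d-1)` (`image_norm_le_of_norm_deriv_right_le_deriv_boundary` with the bound
`B s = C₁ + La (s^(d-1) - R'^(d-1))/(d-1)`).
LOWER BOUND.  `∃ c > 0, C₀ ≥ 0, ∀ p, R' ≤ ‖p‖ → c ‖p‖^(d-1) - C₀ ≤ inner (g p) p / ‖p‖`: the function
`s ↦ fderiv k (s u) u - s^(d-1)/(La (d-1))` is monotone on `[R', r]` (derivative `d2 k (s u) u - s^(d-2)/La ≥ 0`, `Kin.gr` with `v = u`), so
`fderiv k (r u) u ≥ r^(d-1)/(La (d-1)) - R'^(d-1)/(La (d-1)) - C₁`.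
`kin_asym`: combine: for `‖p‖ ≥ R₁` the constants `C₀, C₁` are at most half of / at most the main term (`‖p‖^(d-1) → ∞`: `tendsto_rpow_atTop`).
`kin_super`: given `A`, choose `r₁ ≥ R'` with `c r₁^(d-1) - C₀ ≥ |A|`.  For `‖p‖ ≥ r₁`, `p₁ = (r₁/‖p‖) p`: convexity at `p₁`:
`k p ≥ k p₁ + inner (g p₁) (p - p₁) = k p₁ + (‖p‖ - r₁) (inner (g p₁) p₁)/r₁ ≥ -M + |A| (‖p‖ - r₁)`, `M = sup |k|` on the ball of radius `r₁`.  For `‖p‖ ≤ r₁`:
`k p ≥ -M ≥ A ‖p‖ - |A| r₁ - M`.
-/

set_option autoImplicit false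
set_option linter.unusedSectionVars false

open MeasureTheory Module Set Filter Topology

namespace Pool.Agent.EMK

open Pool.H45.Mather Pool.Agent.LRT

noncomputable section

variable {n : ℕ} {E : Type*} [NormedAddCommGroup E] [InnerProductSpace ℝ E] [FiniteDimensional ℝ E]
  [CompleteSpace E] {k : E → ℝ} {d La R : ℝ}

theorem eka_nn (hk : Kin d La R k) (p q : E) : 0 ≤ fderiv ℝ (fderiv ℝ k) p q q := by
  by_cases hq : q = 0
  · subst hq
    simp
  · exact (hk.pos p q hq).le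

theorem eka_c2 (hk : Kin d La R k) : Continuous (fderiv ℝ (fderiv ℝ k)) := by
  have h3 : ContDiff ℝ 1 (fderiv ℝ k) := hk.smooth.fderiv_right (by norm_num)
  exact h3.continuous_fderiv (by norm_num)

theorem kin_conv (hk : Kin d La R k) (p q : E) : k p + inner ℝ (gradient k p) q ≤ k (p + q) := by
  have hc : Continuous (fun t : ℝ => fderiv ℝ (fderiv ℝ k) (p + t • q) q q) := by
    have h4 : Continuous (fun t : ℝ => p + t • q) := by fun_prop
    exact (((eka_c2 hk).comp h4).clm_apply continuous_const).clm_apply continuous_const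
  obtain ⟨M, hM⟩ := (isCompact_Icc (a := (0 : ℝ)) (b := 1)).bddAbove_image hc.continuousOn
  have a := (LRW.line_taylor hk.smooth (m := 0) (M := M) p q
    (fun t ht => ⟨eka_nn hk _ q, hM (mem_image_of_mem _ ht)⟩)).1
  rw [LRW.tf1_inner]
  linarith

theorem eka_cs (hk : Kin d La R k) (hLa : 1 ≤ La) {p : E} (hp : R ≤ ‖p‖) (u w : E) :
    |fderiv ℝ (fderiv ℝ k) p u w| ≤ La * ‖p‖ ^ (d - 2) * ‖u‖ * ‖w‖ := by
  have hsym : ∀ a b, fderiv ℝ (fderiv ℝ k) p a b = fderiv ℝ (fderiv ℝ k) p b a := by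
    intro a b
    have h1 : IsSymmSndFDerivAt ℝ k p := by
      refine ContDiffAt.isSymmSndFDerivAt hk.smooth.contDiffAt ?_
      simp
    exact h1 a b
  have hnn := eka_nn hk p
  set B := fderiv ℝ (fderiv ℝ k) p with hB
  have hμ : 0 ≤ ‖p‖ ^ (d - 2) := Real.rpow_nonneg (norm_nonneg _) _
  have h1 := (hk.gr p u hp).2
  have h2 := (hk.gr p w hp).2
  unfold d2 at h1 h2
  rw [← hB] at h1 h2
  have hdisc : ∀ t : ℝ, 0 ≤ B w w * (t * t) + (2 * B u w) * t + B u u := by
    intro t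
    have h := hnn (u + t • w)
    rw [map_add, map_smul] at h
    simp only [_root_.add_apply, _root_.smul_apply, map_add, map_smul, smul_eq_mul] at h
    rw [hsym w u] at h
    linarith
  have h3 := discrim_le_zero hdisc
  unfold discrim at h3
  have h4 : B u w ^ 2 ≤ B w w * B u u := by nlinarith
  have h5 : B w w * B u u ≤ (La * ‖p‖ ^ (d - 2) * ‖w‖ ^ 2) * (La * ‖p‖ ^ (d - 2) * ‖u‖ ^ 2) :=
    mul_le_mul h2 h1 (hnn u) (by positivity)
  have h6 : B u w ^ 2 ≤ (La * ‖p‖ ^ (d - 2) * ‖u‖ * ‖w‖) ^ 2 := by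
    calc B u w ^ 2 ≤ _ := h4
      _ ≤ _ := h5
      _ = _ := by ring
  exact abs_le_of_sq_le_sq h6 (by positivity)

theorem eka_line (hk : Kin d La R k) (u : E) (s : ℝ) :
    HasDerivAt (fun s : ℝ => fderiv ℝ k (s • u)) (fderiv ℝ (fderiv ℝ k) (s • u) u) s := by
  have h3 : ContDiff ℝ 1 (fderiv ℝ k) := hk.smooth.fderiv_right (by norm_num)
  have hd2 : Differentiable ℝ (fderiv ℝ k) := h3.differentiable (by norm_num)
  have hl : HasDerivAt (fun t : ℝ => t • u) u s := by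
    have := (hasDerivAt_id' s).smul_const u
    rw [one_smul] at this
    exact this
  exact (hd2 (s • u)).hasFDerivAt.comp_hasDerivAt s hl

theorem eka_pow {s a : ℝ} (hd : 1 < d) (hs : 0 < s) :
    HasDerivAt (fun s : ℝ => (s ^ (d - 1) - a) / (d - 1)) (s ^ (d - 2)) s := by
  have h1 := ((Real.hasDerivAt_rpow_const (p := d - 1) (Or.inl hs.ne')).sub_const a).div_const (d - 1)
  have e : (d - 1) * s ^ (d - 1 - 1) / (d - 1) = s ^ (d - 2) := by
    rw [mul_div_assoc, mul_comm, div_mul_cancel₀ _ (by linarith : d - 1 ≠ 0)]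
    congr 1
    ring
  rw [e] at h1
  exact h1

theorem eka_rad (hk : Kin d La R k) (hd : 1 < d) (hLa : 1 ≤ La) :
    ∃ C₁ : ℝ, 0 ≤ C₁ ∧ ∀ (u : E) (r : ℝ), ‖u‖ = 1 → max R 1 ≤ r →
      ‖fderiv ℝ k (r • u)‖ ≤ C₁ + La * ((r ^ (d - 1) - (max R 1) ^ (d - 1)) / (d - 1)) ∧
      ((r ^ (d - 1) - (max R 1) ^ (d - 1)) / (d - 1)) / La - C₁ ≤ fderiv ℝ k (r • u) u := by
  have : ProperSpace E := FiniteDimensional.proper ℝ E
  have hc1 : Continuous (fderiv ℝ k) := hk.smooth.continuous_fderiv (by norm_num)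
  obtain ⟨C, hC⟩ := (isCompact_closedBall (0 : E) (max R 1)).exists_bound_of_continuousOn hc1.continuousOn
  have hR1 : (1 : ℝ) ≤ max R 1 := le_max_right _ _
  have hRR : R ≤ max R 1 := le_max_left _ _
  set R' := max R 1 with hR'
  have hLa0 : (0 : ℝ) < La := by linarith
  refine ⟨max C 0, le_max_right _ _, fun u r hu hr => ?_⟩
  have h0 : ‖fderiv ℝ k (R' • u)‖ ≤ max C 0 := by
    refine (hC (R' • u) ?_).trans (le_max_left _ _)
    rw [mem_closedBall_zero_iff, norm_smul, hu, mul_one, Real.norm_of_nonneg (by linarith)]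
  have hns : ∀ s : ℝ, R' ≤ s → ‖s • u‖ = s := by
    intro s hs
    rw [norm_smul, hu, mul_one, Real.norm_of_nonneg (by linarith)]
  constructor
  · have key := image_norm_le_of_norm_deriv_right_le_deriv_boundary' (f := fun s : ℝ => fderiv ℝ k (s • u))
      (f' := fun s => fderiv ℝ (fderiv ℝ k) (s • u) u) (a := R') (b := r)
      (fun s _ => (eka_line hk u s).continuousAt.continuousWithinAt)
      (fun s _ => (eka_line hk u s).hasDerivWithinAt)
      (B := fun s => max C 0 + La * ((s ^ (d - 1) - R' ^ (d - 1)) / (d - 1)))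
      (B' := fun s => La * s ^ (d - 2))
      (by simpa using h0)
      (fun s hs => (((eka_pow hd (by linarith [hs.1])).const_mul La).const_add (max C 0)).continuousAt.continuousWithinAt)
      (fun s hs => (((eka_pow hd (by linarith [hs.1])).const_mul La).const_add (max C 0)).hasDerivWithinAt)
      (by
        intro s hs
        have hsp : 0 < s := by linarith [hs.1]
        refine ContinuousLinearMap.opNorm_le_bound _ (by positivity) (fun w => ?_)
        have := eka_cs hk hLa (p := s • u) (by rw [hns s hs.1]; linarith [hs.1]) u w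
        rw [hns s hs.1, hu, mul_one] at this
        exact this)
    exact key (right_mem_Icc.2 hr)
  · have hder : ∀ s : ℝ, 0 < s → HasDerivAt (fun s : ℝ => fderiv ℝ k (s • u) u - ((s ^ (d - 1) - R' ^ (d - 1)) / (d - 1)) / La)
        (fderiv ℝ (fderiv ℝ k) (s • u) u u - s ^ (d - 2) / La) s := by
      intro s hs
      have e1 := (ContinuousLinearMap.apply ℝ ℝ u).hasFDerivAt.comp_hasDerivAt s (eka_line hk u s)
      have e2 := (eka_pow (a := R' ^ (d - 1)) hd hs).div_const La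
      exact e1.sub e2
    have hmono : MonotoneOn (fun s : ℝ => fderiv ℝ k (s • u) u - ((s ^ (d - 1) - R' ^ (d - 1)) / (d - 1)) / La) (Icc R' r) := by
      refine monotoneOn_of_deriv_nonneg (convex_Icc _ _) ?_ ?_ ?_
      · intro s hs
        exact (hder s (by linarith [hs.1])).continuousAt.continuousWithinAt
      · intro s hs
        rw [interior_Icc] at hs
        exact (hder s (by linarith [hs.1])).differentiableAt.differentiableWithinAt
      · intro s hs
        rw [interior_Icc] at hs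
        rw [(hder s (by linarith [hs.1])).deriv]
        have := (hk.gr (s • u) u (by rw [hns s hs.1.le]; linarith [hs.1])).1
        rw [hns s hs.1.le, hu] at this
        unfold d2 at this
        simp only [one_pow, mul_one] at this
        linarith
    have h1 := hmono (left_mem_Icc.2 hr) (right_mem_Icc.2 hr) hr
    simp only [sub_self, zero_div, sub_zero] at h1
    have h2 : -(max C 0) ≤ fderiv ℝ k (R' • u) u := by
      have h3 := (fderiv ℝ k (R' • u)).le_opNorm u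
      rw [hu, mul_one, Real.norm_eq_abs] at h3
      have h4 := neg_abs_le (fderiv ℝ k (R' • u) u)
      linarith
    linarith

theorem eka_gn (p : E) : ‖gradient k p‖ = ‖fderiv ℝ k p‖ := by
  unfold gradient
  exact LinearIsometryEquiv.norm_map _ _

theorem kin_asym (hk : Kin d La R k) (hd : 1 < d) (hLa : 1 ≤ La) :
    ∃ c C R₁ : ℝ, 0 < c ∧ 0 < C ∧ 1 ≤ R₁ ∧ ∀ p : E, R₁ ≤ ‖p‖ →
      c * ‖p‖ ^ (d - 1) ≤ ‖gradient k p‖ ∧ ‖gradient k p‖ ≤ C * ‖p‖ ^ (d - 1) := by
  obtain ⟨C₁, hC₁, h⟩ := eka_rad hk hd hLa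
  have hR1 : (1 : ℝ) ≤ max R 1 := le_max_right _ _
  set R' := max R 1 with hR'
  have hLa0 : (0 : ℝ) < La := by linarith
  have hd0 : 0 < d - 1 := by linarith
  have hRp : 0 ≤ R' ^ (d - 1) := Real.rpow_nonneg (by linarith) _
  obtain ⟨N, hN⟩ := Filter.eventually_atTop.1 ((tendsto_rpow_atTop hd0).eventually_ge_atTop
    (2 * (R' ^ (d - 1) + La * (d - 1) * C₁)))
  refine ⟨1 / (2 * (La * (d - 1))), C₁ + La / (d - 1), max N R', by positivity, by positivity,
    hR1.trans (le_max_right _ _), fun p hp => ?_⟩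
  have hpN : N ≤ ‖p‖ := (le_max_left _ _).trans hp
  have hpR : R' ≤ ‖p‖ := (le_max_right _ _).trans hp
  have hp0 : 0 < ‖p‖ := by linarith
  have hu : ‖(‖p‖⁻¹) • p‖ = 1 := by
    rw [norm_smul, norm_inv, norm_norm, inv_mul_cancel₀ hp0.ne']
  have hpu : ‖p‖ • ((‖p‖⁻¹) • p) = p := by
    rw [smul_smul, mul_inv_cancel₀ hp0.ne', one_smul]
  obtain ⟨h1, h2⟩ := h _ ‖p‖ hu hpR
  rw [hpu] at h1 h2
  rw [eka_gn]
  have h3 := (fderiv ℝ k p).le_opNorm ((‖p‖⁻¹) • p)
  rw [hu, mul_one] at h3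
  have h4 : fderiv ℝ k p ((‖p‖⁻¹) • p) ≤ ‖fderiv ℝ k p‖ := (Real.le_norm_self _).trans h3
  have h5 := hN ‖p‖ hpN
  have h6 : (1 : ℝ) ≤ ‖p‖ ^ (d - 1) := Real.one_le_rpow (by linarith) hd0.le
  set X := ‖p‖ ^ (d - 1) with hX
  constructor
  · have e1 : 1 / (2 * (La * (d - 1))) * X = X / (d - 1) / La - (X / 2) / (d - 1) / La := by
      field_simp
      ring
    have e2 : R' ^ (d - 1) / (d - 1) / La + C₁ ≤ (X / 2) / (d - 1) / La := by
      rw [div_div, div_div, ← sub_nonneg]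
      have : X / 2 / ((d - 1) * La) - (R' ^ (d - 1) / ((d - 1) * La) + C₁)
          = (X / 2 - (R' ^ (d - 1) + La * (d - 1) * C₁)) / ((d - 1) * La) := by
        field_simp
      rw [this]
      exact div_nonneg (by linarith) (by positivity)
    have e3 : (X - R' ^ (d - 1)) / (d - 1) / La = X / (d - 1) / La - R' ^ (d - 1) / (d - 1) / La := by
      rw [sub_div, sub_div]
    rw [e3] at h2
    rw [e1]
    linarith
  · have e1 : La * ((X - R' ^ (d - 1)) / (d - 1)) ≤ La / (d - 1) * X := by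
      have : La / (d - 1) * X - La * ((X - R' ^ (d - 1)) / (d - 1)) = La * (R' ^ (d - 1) / (d - 1)) := by
        field_simp
        ring
      have h7 : 0 ≤ La * (R' ^ (d - 1) / (d - 1)) := by positivity
      linarith
    have e2 : C₁ ≤ C₁ * X := le_mul_of_one_le_right hC₁ h6
    rw [add_mul]
    linarith

theorem kin_super (hk : Kin d La R k) (hd : 1 < d) (hLa : 1 ≤ La) (A : ℝ) :
    ∃ B : ℝ, ∀ p : E, A * ‖p‖ - B ≤ k p := by
  have : ProperSpace E := FiniteDimensional.proper ℝ E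
  obtain ⟨C₁, hC₁, h⟩ := eka_rad hk hd hLa
  have hR1 : (1 : ℝ) ≤ max R 1 := le_max_right _ _
  set R' := max R 1 with hR'
  have hLa0 : (0 : ℝ) < La := by linarith
  have hd0 : 0 < d - 1 := by linarith
  obtain ⟨N, hN⟩ := Filter.eventually_atTop.1 ((tendsto_rpow_atTop hd0).eventually_ge_atTop
    (R' ^ (d - 1) + La * (d - 1) * (C₁ + |A|)))
  set r₁ := max N R' with hr₁
  have hr1 : R' ≤ r₁ := le_max_right _ _
  have hr0 : 0 < r₁ := by linarith
  have h1 := hN r₁ (le_max_left _ _)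
  have h2 : ∀ u : E, ‖u‖ = 1 → |A| ≤ fderiv ℝ k (r₁ • u) u := by
    intro u hu
    have h3 := (h u r₁ hu hr1).2
    have h4 : C₁ + |A| ≤ (r₁ ^ (d - 1) - R' ^ (d - 1)) / (d - 1) / La := by
      rw [div_div, le_div_iff₀ (by positivity)]
      nlinarith
    linarith
  obtain ⟨M, hM⟩ := (isCompact_closedBall (0 : E) r₁).exists_bound_of_continuousOn
    (hk.smooth.continuous).continuousOn
  refine ⟨|A| * r₁ + M, fun p => ?_⟩
  have hM' : ∀ q : E, ‖q‖ ≤ r₁ → -M ≤ k q := by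
    intro q hq
    have := hM q (by rwa [mem_closedBall_zero_iff])
    rw [Real.norm_eq_abs] at this
    exact neg_le_of_abs_le this
  have hA : A * ‖p‖ ≤ |A| * ‖p‖ := mul_le_mul_of_nonneg_right (le_abs_self A) (norm_nonneg _)
  rcases le_total ‖p‖ r₁ with hp | hp
  · have h3 := hM' p hp
    have h4 : |A| * ‖p‖ ≤ |A| * r₁ := mul_le_mul_of_nonneg_left hp (abs_nonneg _)
    linarith
  · have hp0 : 0 < ‖p‖ := by linarith
    have hu : ‖(‖p‖⁻¹) • p‖ = 1 := by
      rw [norm_smul, norm_inv, norm_norm, inv_mul_cancel₀ hp0.ne']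
    have hpu : ‖p‖ • ((‖p‖⁻¹) • p) = p := by
      rw [smul_smul, mul_inv_cancel₀ hp0.ne', one_smul]
    set u := (‖p‖⁻¹) • p with hudef
    have h3 := kin_conv hk (r₁ • u) ((‖p‖ - r₁) • u)
    rw [LRW.tf1_inner, map_smul, ← add_smul, smul_eq_mul] at h3
    have e : r₁ + (‖p‖ - r₁) = ‖p‖ := by ring
    rw [e, hpu] at h3
    have h4 := hM' (r₁ • u) (by rw [norm_smul, hu, mul_one, Real.norm_of_nonneg hr0.le])
    have h5 : (‖p‖ - r₁) * |A| ≤ (‖p‖ - r₁) * fderiv ℝ k (r₁ • u) u :=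
      mul_le_mul_of_nonneg_left (h2 u hu) (by linarith)
    nlinarith

end

end Pool.Agent.EMK
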