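import Pool.Agent.EMK.EK1
import Pool.Agent.LRW.TA
import Pool.Agent.LRW.TF1

/-!
EKD: definitions for the theorem on `H = k (p - A (x)) + V (x)`.
-/

set_option autoImplicit false
set_option linter.unusedSectionVars false

open MeasureTheory Module Set Filter Topology

namespace Pool.Agent.EMK

open Pool.H45.Mather Pool.Agent.LRT

noncomputable section

variable {n : ℕ} {E : Type*} [NormedAddCommGroup E] [InnerProductSpace ℝ E]

/-- the second derivative of `k` at `p` in the direction `v` -/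
def d2 (k : E → ℝ) (p v : E) : ℝ := fderiv ℝ (fderiv ℝ k) p v v

/-- kinetic energies: `C²`, with positive definite second derivative, whose second derivative at `p` lies between `‖p‖^(d-2)/La`
and `La ‖p‖^(d-2)` for `‖p‖ ≥ R` -/
structure Kin (d La R : ℝ) (k : E → ℝ) : Prop where
  smooth : ContDiff ℝ 2 k
  pos : ∀ p v, v ≠ 0 → 0 < d2 k p v
  gr : ∀ p v, R ≤ ‖p‖ → ‖p‖ ^ (d - 2) / La * ‖v‖ ^ 2 ≤ d2 k p v ∧ d2 k p v ≤ La * ‖p‖ ^ (d - 2) * ‖v‖ ^ 2

/-- the Hamiltonian `k (p - A (x)) + V (x)` -/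
def KMag (k : E → ℝ) (A : E → E) (V : E → ℝ) (z : E × E) : ℝ := k (z.2 - A z.1) + V z.1

/-- the Legendre dual of `k` -/
def Kst (k : E → ℝ) (v : E) : ℝ := ⨆ q : E, (inner ℝ q v - k q)

/-- what is used of the dual `K` near infinity -/
structure AsK (K : E → ℝ) : Prop where
  loc : ∀ ω : E, ω ≠ 0 → ∃ (La : ℝ) (p : ℝ → E) (m ρ : ℝ → ℝ), 1 ≤ La ∧
    (∀ᶠ t in atTop, 0 < m t ∧ 0 < ρ t ∧ LocK K (t • ω) (p t) La (m t) (ρ t)) ∧
    (∀ C : ℝ, ∀ᶠ t in atTop, C ≤ t * m t) ∧ (∀ C : ℝ, ∀ᶠ t in atTop, C * t ≤ m t * ρ t ^ 2)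

end

end Pool.Agent.EMK
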