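import Pool.Agent.EMK.EK3
import Pool.Agent.EMK.EKD
import Pool.Agent.H45.MatherFinal

/-!
EKF: `A` is closed and `V` is constant if beta is differentiable near infinity (after H45/MatherFinal).
-/

set_option autoImplicit false
set_option linter.unusedSectionVars false
set_option linter.style.haveILetI false

open MeasureTheory Module Set Filter Topology

namespace Pool.Agent.EMK

open Pool.H45.Mather Pool.Agent.LRT

noncomputable section

variable {n : ℕ} {E : Type*} [NormedAddCommGroup E] [InnerProductSpace ℝ E] [FiniteDimensional ℝ E]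
  [MeasurableSpace E] [BorelSpace E] {b : Basis (Fin n) ℝ E}

lemma ekf_gauge {K : E → ℝ} {A : E → E} {V : E → ℝ} (hL : TonL b (LagK K A V)) (hL0 : TonL b (LagK K (fun _ => 0) V))
    {a : E} {φ : E → ℝ} (hφ : ContDiff ℝ 1 φ)
    (hφp : Per b φ) (h : ∀ x v, inner ℝ (A x) v = inner ℝ a v + fderiv ℝ φ x v) (r : E) :
    betaL b (LagK K A V) r = betaL b (LagK K (fun _ => 0) V) r + inner ℝ a r := by
  have key : ∀ μ : Measure (E × E), IsClosedMeasure b μ → ∫ z, LagK K A V z ∂μ =
      ∫ z, LagK K (fun _ => 0) V z ∂μ + inner ℝ a (∫ z, z.2 ∂μ) := by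
    intro μ hμ
    have e1 : ∀ z : E × E, LagK K A V z = LagK K (fun _ => 0) V z + (inner ℝ a z.2 +
        fderiv ℝ φ z.1 z.2) := by
      intro z
      unfold LagK
      rw [h]
      simp only [inner_zero_left]
      ring
    have i1 : Integrable (LagK K (fun _ => 0) V) μ := hL0.int hμ
    have i2 : Integrable (fun z : E × E => inner ℝ a z.2) μ := hμ.int_snd.const_inner a
    have i3 := hμ.int_fderiv hφ hφp
    have i4 : Integrable (fun z : E × E => inner ℝ a z.2 + fderiv ℝ φ z.1 z.2) μ := i2.add i3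
    simp_rw [e1]
    rw [integral_add i1 i4, integral_add i2 i3, hμ.closed φ hφ hφp, add_zero,
      integral_inner hμ.int_snd]
  apply le_antisymm
  · have : betaL b (LagK K A V) r - inner ℝ a r ≤ betaL b (LagK K (fun _ => 0) V) r := by
      refine le_betaL fun μ hμ hr => ?_
      have h1 := betaL_le hL hμ
      rw [key μ hμ, hr] at h1
      linarith
    linarith
  · refine le_betaL fun μ hμ hr => ?_
    have h1 := betaL_le hL0 hμ
    rw [key μ hμ, hr]
    rw [hr] at h1
    linarith

/-- first phase: the magnetic part -/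
lemma ekf_phase1 (hn : 2 ≤ n) {K : E → ℝ} (hK : AsK K) {A : E → E} {V : E → ℝ} (hL : TonL b (LagK K A V))
    (hA : Continuous A) (hAp : Per b A)
    (hV : Continuous V) (hVp : Per b V)
    (hβ : ∃ R, ∀ h, R ≤ ‖h‖ → DifferentiableAt ℝ (betaL b (LagK K A V)) h)
    {m : Fin n → ℤ} (hm : m ≠ 0) {Ψ : E → ℝ} (hΨ : Continuous Ψ) (hΨp : Per b Ψ)
    (hΨ1 : ∀ x, |Ψ x| ≤ 1) (hΨm : ∀ x y, lin b m x = lin b m y → Ψ x = Ψ y)
    (hΨ0 : ∫ x, Ψ x ∂(lam b) = 0) {w : E} (hw : lin b m w = 0) :
    ∫ x, inner ℝ (A x) w * Ψ x ∂(lam b) = 0 := by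
  by_contra hne
  obtain ⟨k, u, j, hj, hu⟩ := exists_primitive hm
  have hl : ∀ x, lin b m x = j * lin b k x := by
    intro x
    rw [lin_apply, lin_apply, Finset.mul_sum]
    refine Finset.sum_congr rfl fun i _ => ?_
    rw [hj i]
    push_cast
    ring
  have hj0 : (j : ℝ) ≠ 0 := by
    intro h0
    apply hm
    funext i
    have : j = 0 := by exact_mod_cast h0
    rw [hj i, this]; simp
  have hint : ∀ w : E, Integrable (fun x => inner ℝ (A x) w * Ψ x) (lam b) := by
    intro w
    refine Per.integrable (b := b) ?_ ?_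
    · intro i x
      simp only [hAp i x, hΨp i x]
    · exact (hA.inner continuous_const).mul hΨ
  let L : E →ₗ[ℝ] ℝ :=
    { toFun := fun w => ∫ x, inner ℝ (A x) w * Ψ x ∂(lam b)
      map_add' := by
        intro w w'
        rw [← integral_add (hint w) (hint w')]
        refine integral_congr_ae (Eventually.of_forall fun x => ?_)
        simp only [inner_add_right]
        ring
      map_smul' := by
        intro c w
        rw [RingHom.id_apply, smul_eq_mul, ← integral_const_mul]
        refine integral_congr_ae (Eventually.of_forall fun x => ?_)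
        simp only [inner_smul_right]
        ring }
  obtain ⟨ω, hω, hgen, hLω⟩ := exists_generic (b := b) hu L
  have hLω' : L ω ≠ 0 := hLω ⟨w, by
    have := hl w
    rw [hw] at this
    rcases mul_eq_zero.1 this.symm with h | h
    · exact absurd h hj0
    · exact h, hne⟩
  obtain ⟨CA, hCA0, hCA⟩ := hAp.bdd hA
  obtain ⟨CV, hCV0, hCV⟩ := hVp.bdd hV
  obtain ⟨La, p, ms, ρ, hLa, h0, h1, h2⟩ := hK.loc ω (generic_ne_zero hn hgen)
  have hev := contraK (b := b) hL hA hAp hV hVp hCA (F := fun x => -inner ℝ (A x) ω)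
    (by intro i x; simp only [hAp i x]) (hA.inner continuous_const).neg hu hω hgen hΨ hΨp hΨ1
    (fun x y hxy => hΨm x y (by rw [hl, hl, hxy])) hΨ0
    (by
      have : ∫ x, -inner ℝ (A x) ω * Ψ x ∂(lam b) = -L ω := by
        change _ = -∫ x, inner ℝ (A x) ω * Ψ x ∂(lam b)
        rw [← integral_neg]
        refine integral_congr_ae (Eventually.of_forall fun x => ?_)
        simp only
        ring
      rw [this]
      exact neg_ne_zero.2 hLω')
    hLa (p := p) (Λ := fun t => t) (m := ms) (ρ := ρ)
    (by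
      filter_upwards [eventually_gt_atTop 0, h0] with t ht h0t
      exact ⟨ht, h0t⟩)
    (by
      intro δ hδ
      filter_upwards [eventually_ge_atTop (CV / δ)] with t ht x
      have e1 : V x - t * inner ℝ (A x) ω - t * -inner ℝ (A x) ω = V x := by ring
      rw [e1]
      rw [div_le_iff₀ hδ] at ht
      exact (hCV x).trans ht)
    (by
      intro G ε hG hε
      filter_upwards [eventually_gt_atTop 0, h1 ((G + CA) ^ 2 / ε)] with t ht ht'
      rw [div_self ht.ne', one_mul]
      rw [div_le_iff₀ hε] at ht'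
      linarith)
    h2
    (by
      intro C
      filter_upwards [eventually_gt_atTop 0, h1 (C ^ 2), h0] with t ht ht' h0t
      have hs : 0 ≤ √t := Real.sqrt_nonneg _
      have e1 : C ≤ √(t * ms t) := Real.le_sqrt_of_sq_le ht'
      rw [Real.sqrt_mul ht.le] at e1
      calc C * √t ≤ √t * √(ms t) * √t := mul_le_mul_of_nonneg_right e1 hs
        _ = (√t * √t) * √(ms t) := by ring
        _ = t * √(ms t) := by rw [Real.mul_self_sqrt ht.le])
  obtain ⟨R, hR⟩ := hβ
  have hω0 : 0 < ‖ω‖ := norm_pos_iff.2 (generic_ne_zero hn hgen)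
  obtain ⟨t, ht, ht0, ht1⟩ := (hev.and ((eventually_gt_atTop 0).and
    (eventually_ge_atTop (R / ‖ω‖)))).exists
  rw [div_le_iff₀ hω0] at ht1
  refine ht (hR _ ?_)
  rw [norm_smul, Real.norm_eq_abs, abs_of_pos ht0]
  exact ht1

/-- second phase: the potential -/
lemma ekf_phase2 (hn : 2 ≤ n) {K : E → ℝ} (hK : AsK K) {V : E → ℝ} (hL : TonL b (LagK K (fun _ => 0) V))
    (hV : Continuous V) (hVp : Per b V)
    (hβ : ∃ R, ∀ h, R ≤ ‖h‖ → DifferentiableAt ℝ (betaL b (LagK K (fun _ => 0) V)) h)
    {m : Fin n → ℤ} (hm : m ≠ 0) {Ψ : E → ℝ} (hΨ : Continuous Ψ) (hΨp : Per b Ψ)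
    (hΨ1 : ∀ x, |Ψ x| ≤ 1) (hΨm : ∀ x y, lin b m x = lin b m y → Ψ x = Ψ y)
    (hΨ0 : ∫ x, Ψ x ∂(lam b) = 0) : ∫ x, V x * Ψ x ∂(lam b) = 0 := by
  by_contra hne
  obtain ⟨k, u, j, hj, hu⟩ := exists_primitive hm
  have hl : ∀ x, lin b m x = j * lin b k x := by
    intro x
    rw [lin_apply, lin_apply, Finset.mul_sum]
    refine Finset.sum_congr rfl fun i _ => ?_
    rw [hj i]
    push_cast
    ring
  obtain ⟨ω, hω, hgen, _⟩ := exists_generic (b := b) hu 0
  obtain ⟨La, p, ms, ρ, hLa, h0, h1, h2⟩ := hK.loc ω (generic_ne_zero hn hgen)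
  have hev := contraK (b := b) hL continuous_const (Per.const 0) hV hVp
    (CA := 0) (fun x => by simp) (F := V) hVp hV hu hω hgen hΨ hΨp hΨ1
    (fun x y hxy => hΨm x y (by rw [hl, hl, hxy])) hΨ0 hne
    hLa (p := p) (Λ := fun _ => 1) (m := ms) (ρ := ρ)
    (by
      filter_upwards [h0] with t h0t
      exact ⟨one_pos, h0t⟩)
    (by
      intro δ hδ
      refine Eventually.of_forall fun t x => ?_
      simp [hδ.le])
    (by
      intro G ε hG hε
      filter_upwards [eventually_ge_atTop 1, h1 (G ^ 2 / ε)] with t ht ht'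
      have ht0 : 0 < t := by linarith
      rw [div_le_iff₀ hε] at ht'
      rw [add_zero, one_mul, one_div, inv_mul_eq_div, div_pow, div_le_iff₀ (by positivity)]
      have e1 : t * ms t * ε ≤ ε * ms t * t ^ 2 := by
        have e2 : 0 ≤ t * ms t * ε := (sq_nonneg G).trans ht'
        nlinarith
      linarith)
    (by
      intro C
      filter_upwards [eventually_gt_atTop 0, h2 |C|, eventually_ge_atTop 1] with t ht ht' ht1
      have := le_abs_self C
      have := abs_nonneg C
      nlinarith)
    (by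
      intro C
      filter_upwards [eventually_ge_atTop 1, h1 (C ^ 2), h0] with t ht ht' h0t
      have ht0 : 0 < t := by linarith
      rw [Real.sqrt_one, mul_one]
      have e1 : C ≤ √(t * ms t) := Real.le_sqrt_of_sq_le ht'
      rw [Real.sqrt_mul ht0.le] at e1
      have e2 : √t ≤ t := by
        rw [Real.sqrt_le_left ht0.le]
        nlinarith
      exact e1.trans (mul_le_mul_of_nonneg_right e2 (Real.sqrt_nonneg _)))
  obtain ⟨R, hR⟩ := hβ
  have hω0 : 0 < ‖ω‖ := norm_pos_iff.2 (generic_ne_zero hn hgen)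
  obtain ⟨t, ht, ht0, ht1⟩ := (hev.and ((eventually_gt_atTop 0).and
    (eventually_ge_atTop (R / ‖ω‖)))).exists
  rw [div_le_iff₀ hω0] at ht1
  refine ht (hR _ ?_)
  rw [norm_smul, Real.norm_eq_abs, abs_of_pos ht0]
  exact ht1

theorem ekf_closed (hn : 2 ≤ n) {K : E → ℝ} (hK : AsK K) {A : E → E} {V : E → ℝ} (hL : TonL b (LagK K A V))
    (hA : ContDiff ℝ 1 A) (hAp : Per b A) (hV : Continuous V) (hVp : Per b V)
    (hβ : ∃ R, ∀ h, R ≤ ‖h‖ → DifferentiableAt ℝ (betaL b (LagK K A V)) h) (x u v : E) :
    inner ℝ (fderiv ℝ A x u) v = inner ℝ (fderiv ℝ A x v) u := by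
  have hAd : Differentiable ℝ A := hA.differentiable one_ne_zero
  have hdc : Continuous (fderiv ℝ A) := hA.continuous_fderiv one_ne_zero
  have hdp : Per b (fderiv ℝ A) := by
    intro i x
    have h : (fun y => A (y + b i)) = A := funext fun y => hAp i y
    have := fderiv_comp_add_right (𝕜 := ℝ) (f := A) (x := x) (b i)
    rw [h] at this
    exact this.symm
  set G : E → ℝ := fun x => inner ℝ (fderiv ℝ A x u) v - inner ℝ (fderiv ℝ A x v) u with hG
  have hGp : Per b G := by
    intro i x
    simp only [hG, hdp i x]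
  have hGc : Continuous G :=
    ((hdc.clm_apply continuous_const).inner continuous_const).sub
      ((hdc.clm_apply continuous_const).inner continuous_const)
  -- integration by parts against a character-like weight
  have ibp : ∀ (Φ dΦ : E → ℝ) (m : Fin n → ℤ), ContDiff ℝ 1 Φ → Per b Φ → Continuous dΦ →
      Per b dΦ → (∀ x w, fderiv ℝ Φ x w = lin b m w * dΦ x) → ∀ w w' : E,
      ∫ x, inner ℝ (fderiv ℝ A x w) w' * Φ x ∂(lam b) =
        -(lin b m w * ∫ x, inner ℝ (A x) w' * dΦ x ∂(lam b)) := by
    intro Φ dΦ m hΦ hΦp hdΦ hdΦp hd w w'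
    have h1 : ContDiff ℝ 1 (fun x => inner ℝ (A x) w' * Φ x) :=
      (hA.inner ℝ contDiff_const).mul hΦ
    have h2 : Per b (fun x => inner ℝ (A x) w' * Φ x) := by
      intro i x
      simp only [hAp i x, hΦp i x]
    have h3 := int_fderiv h1 h2 w
    have h4 : ∀ x, fderiv ℝ (fun x => inner ℝ (A x) w' * Φ x) x w =
        inner ℝ (fderiv ℝ A x w) w' * Φ x + lin b m w * (inner ℝ (A x) w' * dΦ x) := by
      intro x
      have e1 : HasFDerivAt (fun x => inner ℝ (A x) w') ((innerSL ℝ w').comp (fderiv ℝ A x)) x := by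
        have := (innerSL ℝ w').hasFDerivAt.comp x (hAd x).hasFDerivAt
        refine this.congr_of_eventuallyEq (Eventually.of_forall fun y => ?_)
        simp only [Function.comp_apply, innerSL_apply_apply]
        rw [real_inner_comm]
      have e2 : HasFDerivAt (fun x => inner ℝ (A x) w' * Φ x) _ x :=
        e1.mul (hΦ.differentiable one_ne_zero x).hasFDerivAt
      rw [e2.fderiv]
      simp only [add_apply, smul_apply, smul_eq_mul, ContinuousLinearMap.comp_apply,
        innerSL_apply_apply]
      rw [hd, real_inner_comm (fderiv ℝ A x w) w']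
      ring
    simp_rw [h4] at h3
    have i1 : Integrable (fun x => inner ℝ (fderiv ℝ A x w) w' * Φ x) (lam b) := by
      refine Per.integrable (b := b) ?_
        (((hdc.clm_apply continuous_const).inner continuous_const).mul hΦ.continuous)
      intro i x
      simp only [hdp i x, hΦp i x]
    have i2' : Integrable (fun x => inner ℝ (A x) w' * dΦ x) (lam b) := by
      refine Per.integrable (b := b) ?_ ((hA.continuous.inner continuous_const).mul hdΦ)
      intro i x
      simp only [hAp i x, hdΦp i x]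
    have i2 : Integrable (fun x => lin b m w * (inner ℝ (A x) w' * dΦ x)) (lam b) :=
      i2'.const_mul _
    rw [integral_add i1 i2, integral_const_mul] at h3
    linarith
  -- combination
  have comb : ∀ (Φ dΦ : E → ℝ) (m : Fin n → ℤ), ContDiff ℝ 1 Φ → Per b Φ → Continuous dΦ →
      Per b dΦ → (∀ x w, fderiv ℝ Φ x w = lin b m w * dΦ x) →
      (∀ w, lin b m w = 0 → ∫ x, inner ℝ (A x) w * dΦ x ∂(lam b) = 0) →
      ∫ x, G x * Φ x ∂(lam b) = 0 := by
    intro Φ dΦ m hΦ hΦp hdΦ hdΦp hd hz
    have i1 : ∀ w w' : E, Integrable (fun x => inner ℝ (fderiv ℝ A x w) w' * Φ x) (lam b) := by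
      intro w w'
      refine Per.integrable (b := b) ?_
        (((hdc.clm_apply continuous_const).inner continuous_const).mul hΦ.continuous)
      intro i x
      simp only [hdp i x, hΦp i x]
    have i2 : ∀ w : E, Integrable (fun x => inner ℝ (A x) w * dΦ x) (lam b) := by
      intro w
      refine Per.integrable (b := b) ?_ ((hA.continuous.inner continuous_const).mul hdΦ)
      intro i x
      simp only [hAp i x, hdΦp i x]
    have e1 : ∀ x, G x * Φ x = inner ℝ (fderiv ℝ A x u) v * Φ x -
        inner ℝ (fderiv ℝ A x v) u * Φ x := by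
      intro x
      change (inner ℝ (fderiv ℝ A x u) v - inner ℝ (fderiv ℝ A x v) u) * Φ x = _
      ring
    rw [integral_congr_ae (Eventually.of_forall e1), integral_sub (i1 u v) (i1 v u),
      ibp Φ dΦ m hΦ hΦp hdΦ hdΦp hd u v, ibp Φ dΦ m hΦ hΦp hdΦ hdΦp hd v u]
    have h5 := hz (lin b m u • v - lin b m v • u) (by
      rw [map_sub, map_smul, map_smul, smul_eq_mul, smul_eq_mul]; ring)
    have e2 : ∀ x, inner ℝ (A x) (lin b m u • v - lin b m v • u) * dΦ x =
        lin b m u * (inner ℝ (A x) v * dΦ x) - lin b m v * (inner ℝ (A x) u * dΦ x) := by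
      intro x
      rw [inner_sub_right, inner_smul_right, inner_smul_right]
      ring
    simp_rw [e2] at h5
    rw [integral_sub ((i2 v).const_mul _) ((i2 u).const_mul _), integral_const_mul,
      integral_const_mul] at h5
    linarith
  have hzero : G x = 0 := by
    refine eq_zero_of_orth (b := b) hGp hGc ?_ ?_ x
    · intro m
      have hl := (lin b m).continuous
      refine comb _ (fun x => -(2 * Real.pi) * Real.sin (2 * Real.pi * lin b m x)) m
        (contDiff_const.mul (lin b m).contDiff).cos (cos_per m) (by fun_prop)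
        ((sin_per m).comp (-(2 * Real.pi) * ·)) ?_ ?_
      · intro x w
        rw [(hasFDerivAt_lin2 (b := b) m x).cos.fderiv]
        simp only [smul_apply, smul_eq_mul]
        ring
      · intro w hw
        rcases eq_or_ne m 0 with rfl | hm
        · have : ∀ x, lin b (0 : Fin n → ℤ) x = 0 := fun x => by simp [lin_apply]
          simp [this]
        · have h1 := ekf_phase1 hn hK hL hA.continuous hAp hV hVp hβ hm
            (Ψ := fun x => Real.sin (2 * Real.pi * lin b m x)) (by fun_prop) (sin_per m)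
            (fun x => Real.abs_sin_le_one _) (fun x y hxy => by simp only [hxy])
            (int_char hm).2 hw
          have e3 : ∀ x, inner ℝ (A x) w * (-(2 * Real.pi) * Real.sin (2 * Real.pi * lin b m x)) =
              -(2 * Real.pi) * (inner ℝ (A x) w * Real.sin (2 * Real.pi * lin b m x)) := by
            intro x; ring
          simp_rw [e3]
          rw [integral_const_mul, h1, mul_zero]
    · intro m
      have hl := (lin b m).continuous
      rcases eq_or_ne m 0 with rfl | hm
      · have : ∀ x, lin b (0 : Fin n → ℤ) x = 0 := fun x => by simp [lin_apply]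
        simp [this]
      refine comb _ (fun x => 2 * Real.pi * Real.cos (2 * Real.pi * lin b m x)) m
        (contDiff_const.mul (lin b m).contDiff).sin (sin_per m) (by fun_prop)
        ((cos_per m).comp (2 * Real.pi * ·)) ?_ ?_
      · intro x w
        rw [(hasFDerivAt_lin2 (b := b) m x).sin.fderiv]
        simp only [smul_apply, smul_eq_mul]
        ring
      · intro w hw
        have h1 := ekf_phase1 hn hK hL hA.continuous hAp hV hVp hβ hm
          (Ψ := fun x => Real.cos (2 * Real.pi * lin b m x)) (by fun_prop) (cos_per m)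
          (fun x => Real.abs_cos_le_one _) (fun x y hxy => by simp only [hxy])
          (int_char hm).1 hw
        have e3 : ∀ x, inner ℝ (A x) w * (2 * Real.pi * Real.cos (2 * Real.pi * lin b m x)) =
            2 * Real.pi * (inner ℝ (A x) w * Real.cos (2 * Real.pi * lin b m x)) := by
          intro x; ring
        simp_rw [e3]
        rw [integral_const_mul, h1, mul_zero]
  have := hzero
  simp only [hG] at this
  linarith

theorem ekf_const (hn : 2 ≤ n) {K : E → ℝ} (hK : AsK K) {V : E → ℝ} (hL : TonL b (LagK K (fun _ => 0) V))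
    (hV : Continuous V) (hVp : Per b V)
    (hβ : ∃ R, ∀ h, R ≤ ‖h‖ → DifferentiableAt ℝ (betaL b (LagK K (fun _ => 0) V)) h) (x y : E) :
    V x = V y := by
  refine exists_char_of_nonconst (b := b) hVp hV (fun m hm => ?_) x y
  have hl := (lin b m).continuous
  exact ⟨ekf_phase2 hn hK hL hV hVp hβ hm (Ψ := fun x => Real.cos (2 * Real.pi * lin b m x)) (by fun_prop)
      (cos_per m) (fun x => Real.abs_cos_le_one _) (fun x y hxy => by simp only [hxy])
      (int_char hm).1,
    ekf_phase2 hn hK hL hV hVp hβ hm (Ψ := fun x => Real.sin (2 * Real.pi * lin b m x)) (by fun_prop)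
      (sin_per m) (fun x => Real.abs_sin_le_one _) (fun x y hxy => by simp only [hxy])
      (int_char hm).2⟩

/-- **Main theorem.** -/
theorem ekf_main (hn : 2 ≤ n) {K : E → ℝ} (hK : AsK K) {A : E → E} {V : E → ℝ} (hL : TonL b (LagK K A V))
    (hL0 : TonL b (LagK K (fun _ => 0) V)) (hA : ContDiff ℝ 1 A) (hAp : Per b A)
    (hV : Continuous V) (hVp : Per b V)
    (hβ : ∃ R, ∀ h, R ≤ ‖h‖ → DifferentiableAt ℝ (betaL b (LagK K A V)) h) :
    (∀ x u v, inner ℝ (fderiv ℝ A x u) v = inner ℝ (fderiv ℝ A x v) u) ∧ ∀ x y, V x = V y := by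
  have hcl := ekf_closed hn hK hL hA hAp hV hVp hβ
  refine ⟨hcl, ?_⟩
  obtain ⟨a, φ, hφ, hφp, hφA⟩ := exists_gauge hA hAp hcl
  have hg := ekf_gauge hL hL0 hφ hφp hφA
  refine ekf_const hn hK hL0 hV hVp ?_
  obtain ⟨R, hR⟩ := hβ
  refine ⟨R, fun h hh => ?_⟩
  have : betaL b (LagK K (fun _ => 0) V) = fun r => betaL b (LagK K A V) r - inner ℝ a r := by
    funext r
    rw [hg r]; ring
  rw [this]
  exact (hR h hh).sub (innerSL ℝ a).differentiableAt

end

end Pool.Agent.EMK
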