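import Pool.Agent.EMK.EKP

/-!
EKG (difficulty 2).  `AsK (Kst k)` and surjectivity of the gradient.

PROOF.  `kin_surj`: `q ↦ inner q v - k q` is continuous and tends to `-∞` (`kin_super` with `A = ‖v‖ + 1`), so it has a maximum `p`; there
`fderiv k p w = inner v w` for all `w`, so `gradient k p = v` (`IsLocalMax.fderiv_eq_zero`).
`kin_asK`: for `ω ≠ 0`, `t > 0` choose `p t` with `gradient k (p t) = t ω` (`kin_surj`).  Since `‖gradient k‖` is bounded on bounded sets (continuity) and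
`‖t ω‖ → ∞`, `‖p t‖ → ∞` as `t → ∞`.  For `t` large `c ‖p‖^(d-1) ≤ t ‖ω‖ ≤ C ‖p‖^(d-1)` (`kin_asym`), and `kin_loc` applies.  `La₁ = La 2^|d-2| ≥ 1`,
`m t = ‖p t‖^(2-d)/2`, `ρ t = ‖p t‖^(d-1)/(4 La₁)`.  `t m t ≥ (c/‖ω‖) ‖p‖^(d-1) ‖p‖^(2-d)/2 = (c/(2‖ω‖)) ‖p t‖ → ∞`;
`m ρ² = ‖p‖^(2-d) ‖p‖^(2d-2)/(32 La₁²) = ‖p‖^d/(32 La₁²)` and `t ≤ (C/‖ω‖) ‖p‖^(d-1)`, so `m ρ²/t ≥ c' ‖p t‖ → ∞`.
-/

set_option autoImplicit false
set_option linter.unusedSectionVars false

open MeasureTheory Module Set Filter Topology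

namespace Pool.Agent.EMK

open Pool.H45.Mather Pool.Agent.LRT

noncomputable section

variable {n : ℕ} {E : Type*} [NormedAddCommGroup E] [InnerProductSpace ℝ E] [FiniteDimensional ℝ E]
  [CompleteSpace E] {k : E → ℝ} {d La R : ℝ}

theorem ekg_inner (p w : E) : inner ℝ (gradient k p) w = fderiv ℝ k p w := by
  unfold gradient
  rw [InnerProductSpace.toDual_symm_apply]

theorem kin_surj (hk : Kin d La R k) (hd : 1 < d) (hLa : 1 ≤ La) (v : E) : ∃ p : E, gradient k p = v := by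
  obtain ⟨B, hB⟩ := kin_super hk hd hLa (‖v‖ + 1)
  have hkd : Differentiable ℝ k := hk.smooth.differentiable two_ne_zero
  have hcont : Continuous (fun q : E => inner ℝ q v - k q) :=
    (continuous_id.inner continuous_const).sub hk.smooth.continuous
  have hlim : Tendsto (fun q : E => inner ℝ q v - k q) (cocompact E) atBot := by
    have h1 : Tendsto (fun q : E => B - ‖q‖) (cocompact E) atBot := by
      have h2 : Tendsto (fun q : E => ‖q‖) (cocompact E) atTop := tendsto_norm_cocompact_atTop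
      have h3 := tendsto_neg_atTop_atBot.comp h2
      have h4 := tendsto_atBot_add_const_left (cocompact E) B h3
      refine h4.congr ?_
      intro q
      simp [sub_eq_add_neg]
    refine tendsto_atBot_mono ?_ h1
    intro q
    have h5 := hB q
    have h6 := real_inner_le_norm q v
    show inner ℝ q v - k q ≤ B - ‖q‖
    nlinarith
  obtain ⟨p, hp⟩ := hcont.exists_forall_ge hlim
  refine ⟨p, ?_⟩
  have hmax : IsLocalMax (fun q : E => inner ℝ q v - k q) p := Filter.Eventually.of_forall hp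
  have h1 : HasFDerivAt (fun q : E => inner ℝ q v - k q)
      (innerSL ℝ v - fderiv ℝ k p) p := by
    have h10 : HasFDerivAt (fun q : E => inner ℝ v q) (innerSL ℝ v) p := (innerSL ℝ v).hasFDerivAt
    have h11 : (fun q : E => inner ℝ q v - k q) = fun q : E => inner ℝ v q - k q := by
      funext q
      rw [real_inner_comm]
    rw [h11]
    exact h10.sub (hkd p).hasFDerivAt
  have h2 := hmax.hasFDerivAt_eq_zero h1
  apply ext_inner_right ℝ
  intro w
  rw [ekg_inner]
  have h3 := DFunLike.congr_fun h2 w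
  have h4 : inner ℝ v w - fderiv ℝ k p w = 0 := h3
  linarith

theorem kin_asK (hk : Kin d La R k) (hd : 1 < d) (hLa : 1 ≤ La) : AsK (Kst k) := by
  constructor
  intro w hw
  have hw0 : 0 < ‖w‖ := norm_pos_iff.2 hw
  have hkd : Continuous (fun p : E => gradient k p) := by
    have h1 : Continuous (fderiv ℝ k) := hk.smooth.continuous_fderiv two_ne_zero
    exact (InnerProductSpace.toDual ℝ E).symm.continuous.comp h1
  choose p hp using fun t : ℝ => kin_surj hk hd hLa (t • w)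
  have hP : Tendsto (fun t => ‖p t‖) atTop atTop := by
    rw [tendsto_atTop]
    intro r
    obtain ⟨M, hM⟩ := (isCompact_closedBall (0 : E) r).exists_bound_of_continuousOn hkd.continuousOn
    filter_upwards [eventually_gt_atTop (|M| / ‖w‖), eventually_gt_atTop 0] with t ht ht0
    by_contra hlt
    push Not at hlt
    have h1 := hM (p t) (by rw [mem_closedBall_zero_iff]; exact hlt.le)
    rw [hp t, norm_smul, Real.norm_eq_abs, abs_of_pos ht0] at h1
    rw [div_lt_iff₀ hw0] at ht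
    have := le_abs_self M
    linarith
  obtain ⟨c, C, R₁, hc, hC, hR₁, hasym⟩ := kin_asym hk hd hLa
  obtain ⟨L, hL⟩ : ∃ L : ℝ, L = La * 2 ^ |d - 2| := ⟨_, rfl⟩
  have hL1 : 1 ≤ L := by
    rw [hL]
    have h1 : (1 : ℝ) ≤ 2 ^ |d - 2| := Real.one_le_rpow (by norm_num) (abs_nonneg _)
    calc (1 : ℝ) = 1 * 1 := (one_mul _).symm
      _ ≤ La * 2 ^ |d - 2| := mul_le_mul hLa h1 (by norm_num) (by linarith)
  have hL0 : 0 < L := by linarith
  have hrw : ∀ P : ℝ, 0 < P → P ^ (2 - d) = P / P ^ (d - 1) := by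
    intro P hP0
    have : (2 - d) = 1 - (d - 1) := by ring
    rw [this, Real.rpow_sub hP0, Real.rpow_one]
  refine ⟨L, p, fun t => ‖p t‖ ^ (2 - d) / 2, fun t => ‖p t‖ ^ (d - 1) / (4 * L), hL1, ?_, ?_, ?_⟩
  · filter_upwards [hP.eventually_gt_atTop 0, hP.eventually_ge_atTop (2 * R)] with t h0 h1
    refine ⟨?_, ?_, ?_⟩
    · have := Real.rpow_pos_of_pos h0 (2 - d)
      positivity
    · have := Real.rpow_pos_of_pos h0 (d - 1)
      positivity
    · have := kin_loc hk hd hLa h1 h0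
      rw [hp t, ← hL] at this
      exact this
  · intro A
    filter_upwards [hP.eventually_gt_atTop 0, hP.eventually_ge_atTop R₁,
      hP.eventually_ge_atTop (A * (2 * ‖w‖) / c), eventually_gt_atTop 0] with t h0 h1 h2 ht
    obtain ⟨h3, h4⟩ := hasym (p t) h1
    rw [hp t, norm_smul, Real.norm_eq_abs, abs_of_pos ht] at h3 h4
    rw [div_le_iff₀ hc] at h2
    rw [hrw _ h0]
    have hX : 0 < ‖p t‖ ^ (d - 1) := Real.rpow_pos_of_pos h0 _
    set X : ℝ := ‖p t‖ ^ (d - 1) with hXd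
    set P : ℝ := ‖p t‖ with hPd
    have h5 : t * (P / X / 2) = t * P / (2 * X) := by
      field_simp
    rw [h5, le_div_iff₀ (by positivity)]
    have h6 : A * (2 * ‖w‖) * X ≤ P * c * X := mul_le_mul_of_nonneg_right h2 hX.le
    have h7 : c * X * P ≤ t * ‖w‖ * P := mul_le_mul_of_nonneg_right h3 h0.le
    have h8 : A * (2 * X) * ‖w‖ ≤ t * P * ‖w‖ := by linarith
    exact le_of_mul_le_mul_right h8 hw0
  · intro A
    filter_upwards [hP.eventually_gt_atTop 0, hP.eventually_ge_atTop R₁,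
      hP.eventually_ge_atTop (|A| * C * (32 * L ^ 2) / ‖w‖), eventually_gt_atTop 0] with t h0 h1 h2 ht
    obtain ⟨h3, h4⟩ := hasym (p t) h1
    rw [hp t, norm_smul, Real.norm_eq_abs, abs_of_pos ht] at h3 h4
    rw [div_le_iff₀ hw0] at h2
    rw [hrw _ h0]
    have hX : 0 < ‖p t‖ ^ (d - 1) := Real.rpow_pos_of_pos h0 _
    set X : ℝ := ‖p t‖ ^ (d - 1) with hXd
    set P : ℝ := ‖p t‖ with hPd
    have h5 : P / X / 2 * (X / (4 * L)) ^ 2 = P * X / (32 * L ^ 2) := by
      field_simp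
      ring
    rw [h5, le_div_iff₀ (by positivity)]
    have h6 : A * t ≤ |A| * t := mul_le_mul_of_nonneg_right (le_abs_self A) ht.le
    have h7 : |A| * (32 * L ^ 2) * (t * ‖w‖) ≤ |A| * (32 * L ^ 2) * (C * X) :=
      mul_le_mul_of_nonneg_left h4 (by positivity)
    have h8 : |A| * C * (32 * L ^ 2) * X ≤ P * ‖w‖ * X := mul_le_mul_of_nonneg_right h2 hX.le
    have h9 : |A| * t * (32 * L ^ 2) * ‖w‖ ≤ P * X * ‖w‖ := by linarith
    have h10 : |A| * t * (32 * L ^ 2) ≤ P * X := le_of_mul_le_mul_right h9 hw0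
    have h11 : A * t * (32 * L ^ 2) ≤ |A| * t * (32 * L ^ 2) :=
      mul_le_mul_of_nonneg_right h6 (by positivity)
    linarith

end

end Pool.Agent.EMK
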