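import Pool.Agent.EMK.EKL
import Pool.Agent.H45.MatherFinal

/-!
EKI (difficulty 3).  The converse: `A` closed and `V` constant give `β` of class `C¹` and `C0Int`.

PROOF.  `exists_gauge` (H45/MatherFinal): `inner (A x) v = inner a v + fderiv φ x v`, `φ` periodic `C¹`.
`emk_beta`: `betaL b (LagK K A V) r = K r + inner a r - V 0` for `K = Kst k`.  UPPER BOUND: the closed measure `tm` with density `1` and velocity `r`
(`tm_closed`, `betaL_le`, `hom_tm`, `integral_tm` as in `Mather.beta_free` of H45/MatherFinal or `DatK.upper` of EK1): `∫ LagK (x, r) = K r + inner a r +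
∫ fderiv φ x r - V 0` and `∫ fderiv φ x r ∂(lam b) = 0` (`Mather.int_fderiv`).  LOWER BOUND: `p` with `gradient k p = r` (`kin_surj`); by `kst_fenchel` and
`kst_at`, `inner p v ≤ K v + (inner p r - K r)`, so `SubL (LagK K A V) (p + a) (inner p r - K r + V 0) φ`; `SubL.star` and `StarL.le_beta` (see `DatK.lower` in EK1):
`inner (p + a) r - (inner p r - K r + V 0) ≤ β r`.
`emk_C1`: the formula and `kst_C1`.
`emk_c0`: `P c x = c - a + A x` as in `Mather.c0_of_closed` (H45/MatherFinal): `φ` is `C²` because its derivative `innerSL (A x - a)` is `C¹`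
(`contDiff_succ_iff_fderiv`); along a trajectory on `(t₁, t₂)` of `KMag k A V` (`V` constant) `gradient (fun q => KMag (x, q)) p = gradient k (p - A x) =: w`,
`gradient (fun y => KMag (y, p)) x = - (fderiv A x).adjoint w`, and by closedness `inner (fderiv A x w) v = inner (fderiv A x v) w`, so
`p' = fderiv A x w = (A ∘ x)'` and `p - A ∘ x` is constant on `Ioo t₁ t₂` (`IsOpen.is_const_of_deriv_eq_zero` / `constant_of_derivWithin_zero` on the
preconnected set `Ioo t₁ t₂`; see `LRT` assembly proofs or `is_const_of_deriv_eq_zero`).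
-/

set_option autoImplicit false
set_option linter.unusedSectionVars false

open MeasureTheory Module Set Filter Topology

namespace Pool.Agent.EMK

open Pool.H45.Mather Pool.Agent.LRT

noncomputable section

variable {n : ℕ} {E : Type*} [NormedAddCommGroup E] [InnerProductSpace ℝ E] [FiniteDimensional ℝ E]
  [MeasurableSpace E] [BorelSpace E] {b : Basis (Fin n) ℝ E} {k : E → ℝ} {d La R : ℝ} {A : E → E} {V : E → ℝ}

theorem eki_beta [CompleteSpace E] (hk : Kin d La R k) (hd : 1 < d) (hLa : 1 ≤ La) (hA : Continuous A)
    (hAp : Per b A) (hV : Continuous V) (hVp : Per b V) {a : E} {φ : E → ℝ} (hφ : ContDiff ℝ 1 φ)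
    (hφp : Per b φ) (h : ∀ x v, inner ℝ (A x) v = inner ℝ a v + fderiv ℝ φ x v)
    (hc : ∀ x y, V x = V y) (r : E) :
    betaL b (LagK (Kst k) A V) r = Kst k r + inner ℝ a r - V 0 := by
  have hL := tonL_lagK (b := b) hk hd hLa hA hAp hV hVp
  apply le_antisymm
  · have h1 : ∫ _ : E, (1 : ℝ) ∂(lam b) = 1 := by simp
    have hcl := tm_closed (b := b) (Ψ := fun _ => 1) (w := r) continuous_const (Per.const _)
      (fun _ => zero_le_one) h1 (fun _ _ => rfl)
    have h2 := betaL_le hL hcl
    rw [hom_tm continuous_const (fun _ => zero_le_one) h1,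
      integral_tm continuous_const (fun _ => zero_le_one) r hL.cont] at h2
    have h3 : ∀ x, (1 : ℝ) • LagK (Kst k) A V (x, r) =
        (Kst k r + inner ℝ a r - V 0) + fderiv ℝ φ x r := by
      intro x
      unfold LagK
      simp only [one_smul]
      rw [h, hc x 0]
      ring
    simp_rw [h3] at h2
    have hdc : Continuous (fderiv ℝ φ) := hφ.continuous_fderiv one_ne_zero
    have hi : Integrable (fun x => fderiv ℝ φ x r) (lam b) := by
      refine Per.integrable (b := b) ?_ (hdc.clm_apply continuous_const)
      intro i x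
      simp only [hφp.fderiv i x]
    rw [integral_add (integrable_const _) hi, Pool.H45.Mather.int_fderiv hφ hφp, integral_const] at h2
    simpa using h2
  · obtain ⟨p, hp⟩ := kin_surj hk hd hLa r
    have hat := kst_at hk hd hLa p
    rw [hp] at hat
    have hsub : SubL (LagK (Kst k) A V) (p + a) (inner ℝ p r - Kst k r + V 0) φ := by
      intro x v
      unfold LagK
      simp only
      have h1 := kst_fenchel hk hd hLa p v
      rw [inner_add_left, h, hc x 0]
      linarith
    have hst := hsub.star hL hφ hφp
    have h2 := hst.le_beta r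
    rw [inner_add_left] at h2
    linarith

theorem emk_C1 [CompleteSpace E] (hk : Kin d La R k) (hd : 1 < d) (hLa : 1 ≤ La) (hA : ContDiff ℝ 1 A) (hAp : Per b A)
    (hV : Continuous V) (hVp : Per b V)
    (hcl : ∀ x u v, inner ℝ (fderiv ℝ A x u) v = inner ℝ (fderiv ℝ A x v) u)
    (hc : ∀ x y, V x = V y) : ContDiff ℝ 1 (betaL b (LagK (Kst k) A V)) := by
  obtain ⟨a, φ, hφ, hφp, hφA⟩ := exists_gauge hA hAp hcl
  have h1 : betaL b (LagK (Kst k) A V) = fun r => Kst k r + innerSL ℝ a r - V 0 := by
    funext r
    rw [eki_beta hk hd hLa hA.continuous hAp hV hVp hφ hφp hφA hc r, innerSL_apply_apply]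
  rw [h1]
  exact ((kst_C1 hk hd hLa).add (innerSL ℝ a).contDiff).sub contDiff_const

theorem emk_c0 [CompleteSpace E] (hk : Kin d La R k) (hA : ContDiff ℝ 1 A) (hAp : Per b A)
    (hcl : ∀ x u v, inner ℝ (fderiv ℝ A x u) v = inner ℝ (fderiv ℝ A x v) u)
    (hc : ∀ x y, V x = V y) : C0Int b (KMag k A V) := by
  obtain ⟨a, φ, hφ, hφp, hφA⟩ := exists_gauge hA hAp hcl
  have hAd : Differentiable ℝ A := hA.differentiable one_ne_zero
  have hkd : Differentiable ℝ k := hk.smooth.differentiable two_ne_zero
  have hgi : ∀ p w : E, inner ℝ (gradient k p) w = fderiv ℝ k p w := by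
    intro p w
    unfold gradient
    rw [InnerProductSpace.toDual_symm_apply]
  have hφ2 : ContDiff ℝ 2 φ := by
    have h1 : fderiv ℝ φ = fun x => innerSL ℝ (A x - a) := by
      funext x
      ext v
      rw [innerSL_apply_apply, inner_sub_left, hφA]
      ring
    have h2 : ContDiff ℝ 1 (fderiv ℝ φ) := by
      rw [h1]
      exact (innerSL ℝ).contDiff.comp (hA.sub contDiff_const)
    have h3 : ContDiff ℝ (1 + 1) φ := by
      rw [contDiff_succ_iff_fderiv]
      refine ⟨hφ.differentiable one_ne_zero, by simp, h2⟩
    have h4 : (1 + 1 : WithTop ℕ∞) = 2 := by norm_num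
    rwa [h4] at h3
  refine ⟨fun c x => c - a + A x, fun c => ⟨φ, hφ2, hφp, fun x v => ?_⟩, fun c => ?_, ?_,
    fun x => ?_, fun c x p t₁ t₂ hxp t₀ ht₀ h0 t ht => ?_⟩
  · rw [inner_add_left, inner_sub_left, hφA]
    ring
  · have hdc : Continuous (fderiv ℝ A) := hA.continuous_fderiv one_ne_zero
    have hdp : Per b (fderiv ℝ A) := by
      intro i x
      have h : (fun y => A (y + b i)) = A := funext fun y => hAp i y
      have := fderiv_comp_add_right (𝕜 := ℝ) (f := A) (x := x) (b i)
      rw [h] at this
      exact this.symm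
    obtain ⟨C, hC0, hC⟩ := hdp.bdd hdc
    refine ⟨⟨C, hC0⟩, ?_⟩
    have h1 : LipschitzWith ⟨C, hC0⟩ A := by
      refine lipschitzWith_of_nnnorm_fderiv_le hAd fun x => ?_
      exact hC x
    exact LipschitzWith.of_dist_le_mul fun x y => by
      rw [dist_add_left]
      exact h1.dist_le_mul x y
  · exact ((continuous_fst.sub continuous_const).add (hA.continuous.comp continuous_snd))
  · constructor
    · intro c c' h
      have h1 : c - a + A x = c' - a + A x := h
      have h2 := add_right_cancel h1
      exact sub_left_injective h2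
    · intro q
      exact ⟨q - A x + a, by simp⟩
  · have hgp : ∀ x p : E, gradient (fun q => KMag k A V (x, q)) p = gradient k (p - A x) := by
      intro x p
      refine HasGradientAt.gradient ?_
      rw [hasGradientAt_iff_hasFDerivAt]
      unfold KMag
      simp only
      have h1 : HasFDerivAt (fun q : E => k (q - A x)) (fderiv ℝ k (p - A x)) p := by
        have := (hkd (p - A x)).hasFDerivAt.comp p ((hasFDerivAt_id p).sub_const (A x))
        rw [ContinuousLinearMap.comp_id] at this
        exact this
      have h2 := h1.add_const (V x)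
      refine h2.congr_fderiv ?_
      ext v
      rw [InnerProductSpace.toDual_apply_apply, hgi]
    have hgx : ∀ x p : E, gradient (fun y => KMag k A V (y, p)) x =
        -(fderiv ℝ A x (gradient k (p - A x))) := by
      intro x p
      refine HasGradientAt.gradient ?_
      rw [hasGradientAt_iff_hasFDerivAt]
      unfold KMag
      simp only
      have h1 : HasFDerivAt (fun y : E => k (p - A y))
          ((fderiv ℝ k (p - A x)).comp (-(fderiv ℝ A x))) x := by
        exact (hkd (p - A x)).hasFDerivAt.comp x ((hAd x).hasFDerivAt.const_sub p)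
      have h2 := h1.add_const (V 0)
      have h3 : (fun y : E => k (p - A y) + V y) = fun y => k (p - A y) + V 0 := by
        funext y
        rw [hc y 0]
      rw [h3]
      refine h2.congr_fderiv ?_
      ext v
      simp only [ContinuousLinearMap.comp_apply, neg_apply, InnerProductSpace.toDual_apply_apply,
        inner_neg_left, map_neg]
      rw [hcl x _ v, real_inner_comm, hgi]
    have hder : ∀ t ∈ Ioo t₁ t₂, HasDerivAt (fun t => p t - A (x t)) 0 t := by
      intro t ht
      have h1 := hxp.hx t ht
      have h2 := hxp.hp t ht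
      rw [hgp] at h1
      rw [hgx, neg_neg] at h2
      have h3 := (hAd (x t)).hasFDerivAt.comp_hasDerivAt t h1
      have h4 := h2.sub h3
      rw [sub_self] at h4
      exact h4
    have hconst : p t - A (x t) = p t₀ - A (x t₀) :=
      isOpen_Ioo.is_const_of_deriv_eq_zero isPreconnected_Ioo (f := fun t => p t - A (x t))
        (fun s hs => (hder s hs).differentiableAt.differentiableWithinAt)
        (fun s hs => (hder s hs).deriv) ht ht₀
    rw [h0] at hconst
    have : p t = (p t - A (x t)) + A (x t) := by abel
    rw [this, hconst]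
    beta_reduce
    abel

end

end Pool.Agent.EMK
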