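import Pool.Agent.EMK.EKG

/-!
EKL (difficulty 2).  The Lagrangian of `KMag k A V` is `LagK (Kst k) A V`, and it is Tonelli-like; the dual `Kst k` is `C¹`.

PROOF.  `kmag_hamT`: `HamT b (KMag k A V) (fun z => gradient k (z.2 - A z.1))` (LRW/TD): `cont`, `contp` (the gradient of a `C²` function is continuous,
`gradient = (toDual).symm ∘ fderiv`), `per` (`hAp, hVp`), `low`: `kin_conv`, `sup`: `kin_super` with the bounds of `A`, `V` (`Per.bdd`:
`obtain ⟨C, hC0, hC⟩ := hAp.bdd hA`).
`leg_kmag`: `Leg (KMag k A V) (x, v) = sup_p (inner p v - k (p - A x) - V x)`; substitute `p = q + A x` (`Equiv.iSup_comp`, `(Equiv.addRight (A x)).surjective.iSup_comp`)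
and take the constant `inner (A x) v - V x` out (`ciSup_add`, bounded above by `kst`-arguments of EKP), or use `HamT.max` for `KMag k A V` and `kin_surj`,
`kst_at`: both sides equal `inner p v - k (p - A x) - V x` at `p - A x = q₀`, `gradient k q₀ = v`.
`tonL_lagK`: `LRW.HamT.tonL` and `leg_kmag` (funext).
`kst_C1`: let `G v` be the point with `gradient k (G v) = v` (`kin_surj`, unique: `gradient k` is injective, because
`inner (gradient k p - gradient k q) (p - q) > 0` for `p ≠ q`: `k` is strictly convex (`Kin.pos`)).  `G` is continuous: it is bounded on bounded sets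
(if `v_j → v` and `‖G v_j‖ ≥ R₁` then `c ‖G v_j‖^(d-1) ≤ ‖v_j‖` is bounded: `kin_asym`), and any cluster point `p` of `G v_j` has `gradient k p = v`.
For all `v, w`: `inner (G v) (w - v) ≤ Kst k w - Kst k v ≤ inner (G w) (w - v)` (`kst_fenchel`, `kst_at`), so
`|Kst k w - Kst k v - inner (G v) (w - v)| ≤ ‖G w - G v‖ ‖w - v‖`, i.e. `HasFDerivAt (Kst k) (innerSL ℝ (G v)) v`; `contDiff_one_iff_fderiv`.
-/

set_option autoImplicit false
set_option linter.unusedSectionVars false

open MeasureTheory Module Set Filter Topology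

namespace Pool.Agent.EMK

open Pool.H45.Mather Pool.Agent.LRT

noncomputable section

variable {n : ℕ} {E : Type*} [NormedAddCommGroup E] [InnerProductSpace ℝ E] [FiniteDimensional ℝ E]
  [CompleteSpace E] {b : Basis (Fin n) ℝ E} {k : E → ℝ} {d La R : ℝ} {A : E → E} {V : E → ℝ}

lemma ekl_inner (p q : E) : inner ℝ (gradient k p) q = fderiv ℝ k p q := LRW.tf1_inner p q

lemma ekl_gcont (hk : Kin d La R k) : Continuous (gradient k) := by
  have h1 : Continuous (fderiv ℝ k) := hk.smooth.continuous_fderiv (by norm_num)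
  exact (InnerProductSpace.toDual ℝ E).symm.continuous.comp h1

lemma ekl_inj (hk : Kin d La R k) : Function.Injective (gradient k) := by
  intro p q h
  by_contra hne
  set e : E := q - p with he
  have he0 : e ≠ 0 := fun h0 => hne (sub_eq_zero.mp h0).symm
  have hl : ∀ t : ℝ, HasDerivAt (fun t : ℝ => p + t • e) e t := by
    intro t
    have := ((hasDerivAt_id' t).smul_const e).const_add p
    rw [one_smul] at this
    exact this
  have hF1 : ContDiff ℝ 1 (fderiv ℝ k) := hk.smooth.fderiv_right (by norm_num)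
  have hd2 : Differentiable ℝ (fderiv ℝ k) := hF1.differentiable (by norm_num)
  have h2 : ∀ t : ℝ, HasDerivAt (fun t : ℝ => fderiv ℝ k (p + t • e) e)
      (fderiv ℝ (fderiv ℝ k) (p + t • e) e e) t := by
    intro t
    have e1 := (hd2 (p + t • e)).hasFDerivAt.comp_hasDerivAt t (hl t)
    exact (ContinuousLinearMap.apply ℝ ℝ e).hasFDerivAt.comp_hasDerivAt t e1
  have hm : StrictMono (fun t : ℝ => fderiv ℝ k (p + t • e) e) := by
    refine strictMono_of_deriv_pos fun t => ?_
    rw [(h2 t).deriv]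
    exact hk.pos _ _ he0
  have h3 := hm (zero_lt_one' ℝ)
  simp only [zero_smul, add_zero, one_smul] at h3
  rw [← ekl_inner, ← ekl_inner, he, add_sub_cancel, h] at h3
  exact lt_irrefl _ h3

lemma ekl_proper (hk : Kin d La R k) (hd : 1 < d) (hLa : 1 ≤ La) :
    Tendsto (gradient k) (Bornology.cobounded E) (Bornology.cobounded E) := by
  obtain ⟨c, C, R₁, hc, hC, hR, h⟩ := kin_asym hk hd hLa
  rw [← tendsto_norm_atTop_iff_cobounded]
  have h1 : Tendsto (fun p : E => c * ‖p‖ ^ (d - 1)) (Bornology.cobounded E) atTop :=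
    ((tendsto_rpow_atTop (by linarith : 0 < d - 1)).comp tendsto_norm_cobounded_atTop).const_mul_atTop hc
  refine tendsto_atTop_mono' _ ?_ h1
  have h2 : ∀ᶠ p : E in Bornology.cobounded E, R₁ ≤ ‖p‖ :=
    tendsto_norm_cobounded_atTop.eventually_ge_atTop R₁
  filter_upwards [h2] with p hp
  exact (h p hp).1

lemma ekl_inv (hk : Kin d La R k) (hd : 1 < d) (hLa : 1 ≤ La) :
    ∃ G : E → E, Continuous G ∧ ∀ v, gradient k (G v) = v := by
  have : ProperSpace E := FiniteDimensional.proper ℝ E
  have hbij : Function.Bijective (gradient k) := ⟨ekl_inj hk, fun v => kin_surj hk hd hLa v⟩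
  have hpr : IsProperMap (gradient k) := by
    rw [isProperMap_iff_tendsto_cocompact]
    refine ⟨ekl_gcont hk, ?_⟩
    rw [← Metric.cobounded_eq_cocompact]
    exact ekl_proper hk hd hLa
  let Φ : E ≃ₜ E := (Equiv.ofBijective (gradient k) hbij).toHomeomorphOfContinuousClosed
    (ekl_gcont hk) hpr.isClosedMap
  refine ⟨Φ.symm, Φ.symm.continuous, fun v => ?_⟩
  exact Φ.apply_symm_apply v

theorem kmag_hamT (hk : Kin d La R k) (hd : 1 < d) (hLa : 1 ≤ La) (hA : Continuous A) (hAp : Per b A)
    (hV : Continuous V) (hVp : Per b V) :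
    LRW.HamT b (KMag k A V) (fun z => gradient k (z.2 - A z.1)) := by
  refine ⟨?_, ?_, ?_, ?_, ?_⟩
  · have h1 : Continuous fun z : E × E => k (z.2 - A z.1) :=
      hk.smooth.continuous.comp (continuous_snd.sub (hA.comp continuous_fst))
    exact h1.add (hV.comp continuous_fst)
  · exact (ekl_gcont hk).comp (continuous_snd.sub (hA.comp continuous_fst))
  · intro p i x
    show k (p - A (x + b i)) + V (x + b i) = k (p - A x) + V x
    rw [hAp i x, hVp i x]
  · intro x p q
    have h1 := kin_conv hk (p - A x) q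
    show k (p - A x) + V x + inner ℝ (gradient k (p - A x)) q ≤ k (p + q - A x) + V x
    have e : p + q - A x = p - A x + q := by abel
    rw [e]
    linarith
  · intro a
    obtain ⟨CA, hCA0, hCA⟩ := hAp.bdd hA
    obtain ⟨CV, hCV0, hCV⟩ := hVp.bdd hV
    obtain ⟨B, hB⟩ := kin_super hk hd hLa |a|
    refine ⟨|a| * CA + B + CV, fun x p => ?_⟩
    show a * ‖p‖ - _ ≤ k (p - A x) + V x
    have h1 := hB (p - A x)
    have h2 := hCV x
    rw [Real.norm_eq_abs] at h2
    have h3 := neg_abs_le (V x)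
    have h4 : ‖p‖ ≤ ‖p - A x‖ + CA := by
      have h5 := norm_add_le (p - A x) (A x)
      rw [sub_add_cancel] at h5
      linarith [hCA x]
    have h6 : a * ‖p‖ ≤ |a| * ‖p‖ := mul_le_mul_of_nonneg_right (le_abs_self a) (norm_nonneg p)
    have h7 : |a| * ‖p‖ ≤ |a| * (‖p - A x‖ + CA) := mul_le_mul_of_nonneg_left h4 (abs_nonneg a)
    rw [mul_add] at h7
    linarith

theorem leg_kmag (hk : Kin d La R k) (hd : 1 < d) (hLa : 1 ≤ La) (hA : Continuous A) (hAp : Per b A)
    (hV : Continuous V) (hVp : Per b V) : Leg (KMag k A V) = LagK (Kst k) A V := by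
  funext z
  obtain ⟨x, v⟩ := z
  obtain ⟨p, hp1, hp2⟩ := (kmag_hamT hk hd hLa hA hAp hV hVp).max x v
  simp only at hp1
  rw [hp2]
  show inner ℝ p v - (k (p - A x) + V x) = Kst k v + inner ℝ (A x) v - V x
  have h1 := kst_at hk hd hLa (p - A x)
  rw [hp1, inner_sub_left] at h1
  rw [h1]
  ring

theorem tonL_lagK (hk : Kin d La R k) (hd : 1 < d) (hLa : 1 ≤ La) (hA : Continuous A) (hAp : Per b A)
    (hV : Continuous V) (hVp : Per b V) : TonL b (LagK (Kst k) A V) := by
  rw [← leg_kmag hk hd hLa hA hAp hV hVp]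
  exact (kmag_hamT hk hd hLa hA hAp hV hVp).tonL

theorem kst_C1 (hk : Kin d La R k) (hd : 1 < d) (hLa : 1 ≤ La) : ContDiff ℝ 1 (Kst k) := by
  obtain ⟨G, hGc, hG⟩ := ekl_inv hk hd hLa
  have hlow : ∀ v w : E, inner ℝ (G v) (w - v) ≤ Kst k w - Kst k v := by
    intro v w
    have h1 := kst_fenchel hk hd hLa (G v) w
    have h2 := kst_at hk hd hLa (G v)
    rw [hG v] at h2
    rw [inner_sub_right]
    linarith
  have hder : ∀ v : E, HasFDerivAt (Kst k) (innerSL ℝ (G v)) v := by
    intro v
    refine HasFDerivAt.of_isLittleO ?_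
    rw [Asymptotics.isLittleO_iff]
    intro ε hε
    have h1 : Tendsto (fun w => ‖G w - G v‖) (𝓝 v) (𝓝 0) := by
      have h2 : Continuous fun w => ‖G w - G v‖ := (hGc.sub continuous_const).norm
      have h3 := h2.tendsto v
      simp only [sub_self, norm_zero] at h3
      exact h3
    have h4 : ∀ᶠ w in 𝓝 v, ‖G w - G v‖ < ε := h1.eventually (gt_mem_nhds hε)
    filter_upwards [h4] with w hw
    have h5 := hlow v w
    have h6 := hlow w v
    have h7 : inner ℝ (G w) (v - w) = - inner ℝ (G w) (w - v) := by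
      rw [← inner_neg_right, neg_sub]
    rw [h7] at h6
    have h8 : inner ℝ (G w) (w - v) - inner ℝ (G v) (w - v) = inner ℝ (G w - G v) (w - v) := by
      rw [inner_sub_left]
    have h9 : inner ℝ (G w - G v) (w - v) ≤ ‖G w - G v‖ * ‖w - v‖ := real_inner_le_norm _ _
    have h10 : ‖G w - G v‖ * ‖w - v‖ ≤ ε * ‖w - v‖ :=
      mul_le_mul_of_nonneg_right hw.le (norm_nonneg _)
    rw [innerSL_apply_apply, Real.norm_eq_abs, abs_le]
    constructor
    · have : 0 ≤ ε * ‖w - v‖ := by positivity
      linarith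
    · linarith
  rw [contDiff_one_iff_fderiv]
  refine ⟨fun v => (hder v).differentiableAt, ?_⟩
  have e : fderiv ℝ (Kst k) = fun v => innerSL ℝ (G v) := by
    funext v
    exact (hder v).fderiv
  rw [e]
  exact (innerSL ℝ).continuous.comp hGc

end

end Pool.Agent.EMK
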