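import Pool.Agent.EMK.EKA

/-!
EKP (difficulty 3).  Two-sided quadratic bounds of the dual `Kst k` near infinity.

PROOF.  `μ = ‖p‖^(d-2)`, `La₁ = La * 2 ^ |d-2|` (real power), `h = gradient k p`, `2 R ≤ ‖p‖`, `0 < ‖p‖`.
`ekp_two`: for `‖q‖ ≤ ‖p‖/2`: `k p + inner h q + μ ‖q‖²/(2 La₁) ≤ k (p+q) ≤ k p + inner h q + La₁ μ ‖q‖²/2`: `LRW.line_taylor`; for `s ∈ [0,1]` the point
`p + s q` has norm in `[‖p‖/2, 3‖p‖/2]`, which is `≥ R`, so `2^(-|d-2|) μ ≤ ‖p + s q‖^(d-2) ≤ 2^|d-2| μ` (`‖p+sq‖ = λ ‖p‖`, `1/2 ≤ λ ≤ 3/2 ≤ 2`, so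
`λ^(d-2) ∈ [2^(-|d-2|), 2^|d-2|]`) and `Kin.gr`.
`kst_fenchel`: `inner q v - k q ≤ Kst k v` (`le_ciSup`, bounded above because `‖v‖ ‖q‖ - B ≤ k q`: `kin_super`).
`kst_at`: `Kst k (gradient k p) = inner p (gradient k p) - k p` (`kin_conv`).
`kin_loc`.  `K = Kst k`, `m = ‖p‖^(2-d)/2 = 1/(2 μ)`, `ρ = ‖p‖^(d-1)/(4 La₁) = μ ‖p‖/(4 La₁)`.
`lo`: `kst_fenchel` at `v = h + z` with `p + q`, `q = z/(La₁ μ)` (`‖q‖ ≤ ρ/(La₁ μ) = ‖p‖/(4 La₁²) ≤ ‖p‖/2`):
`K (h+z) ≥ inner (p+q) (h+z) - k (p+q) ≥ inner p h + inner p z + inner q z - k p - La₁ μ ‖q‖²/2 = K h + inner p z + ‖z‖²/(2 La₁ μ)` and `m/La₁ = 1/(2 La₁ μ)`.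
`far`: the same with `q = (ρ/(La₁ μ ‖z‖)) z`: `inner q z = ρ ‖z‖/(La₁ μ)`, `La₁ μ ‖q‖²/2 = ρ²/(2 La₁ μ) ≤ ρ ‖z‖/(2 La₁ μ)`.
`up`: `K (h+z) = sup_q [inner (p+q) (h+z) - k (p+q)]` (`ciSup_le`, every point is `p + q`); with `D q = k (p+q) - k p - inner h q` the bracket is
`K h + inner p z + inner q z - D q`.  For `‖q‖ ≤ ‖p‖/2`: `D q ≥ μ ‖q‖²/(2 La₁)` and `inner q z ≤ ‖q‖ ‖z‖ ≤ μ ‖q‖²/(2 La₁) + La₁ ‖z‖²/(2 μ)`, and
`La₁ m = La₁/(2 μ)`.  For `‖q‖ > ‖p‖/2`: with `q₀ = (‖p‖/(2‖q‖)) q`, `D q ≥ (2‖q‖/‖p‖) D q₀ ≥ (2‖q‖/‖p‖) μ ‖p‖²/(8 La₁) = μ ‖p‖ ‖q‖/(4 La₁) = ρ ‖q‖ ≥ inner q z`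
(convexity of `D` along the ray: `kin_conv` at `p + q₀` with the vectors `q - q₀` and `-q₀`: `D (q₀) ≤ (‖q₀‖/‖q‖) D q`, since `D 0 = 0`).
-/

set_option autoImplicit false
set_option linter.unusedSectionVars false

open MeasureTheory Module Set Filter Topology

namespace Pool.Agent.EMK

open Pool.H45.Mather Pool.Agent.LRT

noncomputable section

variable {n : ℕ} {E : Type*} [NormedAddCommGroup E] [InnerProductSpace ℝ E] [FiniteDimensional ℝ E]
  [CompleteSpace E] {k : E → ℝ} {d La R : ℝ}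

theorem ekp_bdd (hk : Kin d La R k) (hd : 1 < d) (hLa : 1 ≤ La) (v : E) :
    BddAbove (range fun q : E => inner ℝ q v - k q) := by
  obtain ⟨B, hB⟩ := kin_super hk hd hLa ‖v‖
  refine ⟨B, ?_⟩
  rintro _ ⟨q, rfl⟩
  have h1 := hB q
  have h2 := real_inner_le_norm q v
  show inner ℝ q v - k q ≤ B
  rw [mul_comm] at h2
  linarith

theorem kst_fenchel (hk : Kin d La R k) (hd : 1 < d) (hLa : 1 ≤ La) (q v : E) : inner ℝ q v - k q ≤ Kst k v := by
  exact le_ciSup (ekp_bdd hk hd hLa v) q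

theorem kst_at (hk : Kin d La R k) (hd : 1 < d) (hLa : 1 ≤ La) (p : E) :
    Kst k (gradient k p) = inner ℝ p (gradient k p) - k p := by
  apply le_antisymm
  · apply ciSup_le
    intro q
    have h1 := kin_conv hk p (q - p)
    rw [add_sub_cancel, inner_sub_right, real_inner_comm q, real_inner_comm p] at h1
    linarith
  · exact kst_fenchel hk hd hLa p _

theorem ekp_ratio {x y a : ℝ} (hy : 0 < y) (h1 : y / 2 ≤ x) (h2 : x ≤ 2 * y) :
    y ^ a / 2 ^ |a| ≤ x ^ a ∧ x ^ a ≤ 2 ^ |a| * y ^ a := by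
  have hx : 0 < x := by linarith
  rcases le_or_gt 0 a with ha | ha
  · rw [abs_of_nonneg ha]
    constructor
    · rw [← Real.div_rpow hy.le (by norm_num)]
      exact Real.rpow_le_rpow (by positivity) h1 ha
    · rw [← Real.mul_rpow (by norm_num) hy.le]
      exact Real.rpow_le_rpow hx.le h2 ha
  · rw [abs_of_neg ha]
    constructor
    · have h3 : y ^ a / 2 ^ (-a) = (2 * y) ^ a := by
        rw [Real.mul_rpow (by norm_num) hy.le, Real.rpow_neg (by norm_num), div_inv_eq_mul, mul_comm]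
      rw [h3]
      exact Real.rpow_le_rpow_of_nonpos hx h2 ha.le
    · have h3 : (2 : ℝ) ^ (-a) * y ^ a = (y / 2) ^ a := by
        rw [Real.div_rpow hy.le (by norm_num), Real.rpow_neg (by norm_num), mul_comm, div_eq_mul_inv]
      rw [h3]
      exact Real.rpow_le_rpow_of_nonpos (by positivity) h1 ha.le

theorem ekp_two (hk : Kin d La R k) (hLa : 1 ≤ La) {p q : E} (hp : 2 * R ≤ ‖p‖)
    (hp0 : 0 < ‖p‖) (hq : ‖q‖ ≤ ‖p‖ / 2) :
    k p + inner ℝ (gradient k p) q + ‖p‖ ^ (d - 2) / (La * 2 ^ |d - 2|) * ‖q‖ ^ 2 / 2 ≤ k (p + q) ∧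
      k (p + q) ≤ k p + inner ℝ (gradient k p) q +
        (La * 2 ^ |d - 2|) * ‖p‖ ^ (d - 2) * ‖q‖ ^ 2 / 2 := by
  have hLa0 : 0 < La := lt_of_lt_of_le one_pos hLa
  have h2p : (0 : ℝ) < 2 ^ |d - 2| := Real.rpow_pos_of_pos (by norm_num) _
  have key := LRW.line_taylor hk.smooth p q
    (m := ‖p‖ ^ (d - 2) / (La * 2 ^ |d - 2|) * ‖q‖ ^ 2)
    (M := (La * 2 ^ |d - 2|) * ‖p‖ ^ (d - 2) * ‖q‖ ^ 2) ?_
  · have hin : inner ℝ (gradient k p) q = fderiv ℝ k p q := by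
      unfold gradient
      rw [InnerProductSpace.toDual_symm_apply]
    rw [hin]
    exact key
  · intro t ht
    have hs : ‖t • q‖ ≤ ‖p‖ / 2 := by
      rw [norm_smul, Real.norm_eq_abs, abs_of_nonneg ht.1]
      calc t * ‖q‖ ≤ 1 * ‖q‖ := mul_le_mul_of_nonneg_right ht.2 (norm_nonneg _)
        _ = ‖q‖ := one_mul _
        _ ≤ ‖p‖ / 2 := hq
    have h1 : ‖p‖ / 2 ≤ ‖p + t • q‖ := by
      have h3 : ‖p‖ ≤ ‖p + t • q‖ + ‖t • q‖ := by
        have := norm_sub_le (p + t • q) (t • q)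
        rw [add_sub_cancel_right] at this
        exact this
      linarith
    have h2 : ‖p + t • q‖ ≤ 2 * ‖p‖ := by
      have := norm_add_le p (t • q)
      linarith
    have h3 : R ≤ ‖p + t • q‖ := by linarith
    obtain ⟨h4, h5⟩ := hk.gr (p + t • q) q h3
    obtain ⟨h6, h7⟩ := ekp_ratio (a := d - 2) hp0 h1 h2
    have h8 : (0 : ℝ) ≤ ‖q‖ ^ 2 := by positivity
    constructor
    · refine le_trans ?_ h4
      apply mul_le_mul_of_nonneg_right _ h8
      rw [mul_comm La, ← div_div]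
      exact div_le_div_of_nonneg_right h6 hLa0.le
    · refine le_trans h5 ?_
      apply mul_le_mul_of_nonneg_right _ h8
      rw [mul_assoc]
      exact mul_le_mul_of_nonneg_left h7 hLa0.le

theorem ekp_ray (hk : Kin d La R k) (p h q : E) {l : ℝ} (hl : 0 < l) (hl1 : l ≤ 1) :
    k (p + l • q) - k p - inner ℝ h (l • q) ≤ l * (k (p + q) - k p - inner ℝ h q) := by
  have h1 := kin_conv hk (p + l • q) (q - l • q)
  have h2 := kin_conv hk (p + l • q) (-(l • q))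
  have e1 : p + l • q + (q - l • q) = p + q := by abel
  have e2 : p + l • q + -(l • q) = p := by abel
  rw [e1, inner_sub_right, inner_smul_right] at h1
  rw [e2, inner_neg_right, inner_smul_right] at h2
  rw [inner_smul_right]
  set G : ℝ := inner ℝ (gradient k (p + l • q)) q with hG
  have h3 : l * (k (p + l • q) + (G - l * G)) ≤ l * k (p + q) := mul_le_mul_of_nonneg_left h1 hl.le
  have h4 : (1 - l) * (k (p + l • q) + -(l * G)) ≤ (1 - l) * k p :=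
    mul_le_mul_of_nonneg_left h2 (by linarith)
  nlinarith

theorem kin_loc (hk : Kin d La R k) (hd : 1 < d) (hLa : 1 ≤ La) {p : E} (hp : 2 * R ≤ ‖p‖) (hp0 : 0 < ‖p‖) :
    LocK (Kst k) (gradient k p) p (La * 2 ^ |d - 2|) (‖p‖ ^ (2 - d) / 2) (‖p‖ ^ (d - 1) / (4 * (La * 2 ^ |d - 2|))) := by
  have htwo : ∀ q : E, ‖q‖ ≤ ‖p‖ / 2 → _ := fun q hq => ekp_two hk hLa hp hp0 hq
  have hat := kst_at hk hd hLa p
  obtain ⟨L, hL⟩ : ∃ L : ℝ, L = La * 2 ^ |d - 2| := ⟨_, rfl⟩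
  obtain ⟨mu, hmu⟩ : ∃ mu : ℝ, mu = ‖p‖ ^ (d - 2) := ⟨_, rfl⟩
  have hmu0 : 0 < mu := by rw [hmu]; exact Real.rpow_pos_of_pos hp0 _
  have hL1 : 1 ≤ L := by
    rw [hL]
    have h1 : (1 : ℝ) ≤ 2 ^ |d - 2| := Real.one_le_rpow (by norm_num) (abs_nonneg _)
    calc (1 : ℝ) = 1 * 1 := (one_mul _).symm
      _ ≤ La * 2 ^ |d - 2| := mul_le_mul hLa h1 (by norm_num) (by linarith)
  have hL0 : 0 < L := by linarith
  have e1 : ‖p‖ ^ (2 - d) / 2 = 1 / (2 * mu) := by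
    have : (2 - d) = -(d - 2) := by ring
    rw [this, Real.rpow_neg hp0.le, ← hmu]
    field_simp
  have e2 : ‖p‖ ^ (d - 1) = mu * ‖p‖ := by
    have : (d - 1) = (d - 2) + 1 := by ring
    rw [this, Real.rpow_add hp0, Real.rpow_one, ← hmu]
  rw [e1, e2, ← hL]
  rw [← hL, ← hmu] at htwo
  set P : ℝ := ‖p‖ with hP
  set h : E := gradient k p with hh
  have hlow : ∀ q z : E, ‖q‖ ≤ P / 2 →
      Kst k h + inner ℝ p z + inner ℝ q z - L * mu * ‖q‖ ^ 2 / 2 ≤ Kst k (h + z) := by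
    intro q z hq
    have h1 := kst_fenchel hk hd hLa (p + q) (h + z)
    have h2 := (htwo q hq).2
    rw [inner_add_left, inner_add_right, inner_add_right] at h1
    have h3 : inner ℝ q h = (inner ℝ h q : ℝ) := real_inner_comm _ _
    rw [hat]
    linarith
  refine ⟨?_, ?_, ?_⟩
  · intro z hz
    have hq : ‖(1 / (L * mu)) • z‖ = ‖z‖ / (L * mu) := by
      rw [norm_smul, Real.norm_eq_abs, abs_of_pos (by positivity)]
      ring
    have h1 := hlow ((1 / (L * mu)) • z) z (by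
      rw [hq, div_le_iff₀ (by positivity)]
      refine hz.trans ?_
      rw [div_le_iff₀ (by positivity)]
      have : mu * P * 1 ≤ mu * P * (2 * (L * L)) := by
        apply mul_le_mul_of_nonneg_left _ (by positivity)
        nlinarith
      nlinarith)
    rw [hq, inner_smul_left, real_inner_self_eq_norm_sq] at h1
    simp only [conj_trivial] at h1
    have h2 : 1 / (L * mu) * ‖z‖ ^ 2 - L * mu * (‖z‖ / (L * mu)) ^ 2 / 2 =
        1 / (2 * mu) / L * ‖z‖ ^ 2 := by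
      field_simp
      ring
    linarith
  · intro z hz
    show (⨆ q : E, (inner ℝ q (h + z) - k q)) ≤ _
    apply ciSup_le
    intro q'
    obtain ⟨q, rfl⟩ : ∃ q, q' = p + q := ⟨q' - p, by abel⟩
    rw [hat, inner_add_left, inner_add_right, inner_add_right]
    have h3 : inner ℝ q h = (inner ℝ h q : ℝ) := real_inner_comm _ _
    have hin : inner ℝ q z ≤ ‖q‖ * ‖z‖ := real_inner_le_norm q z
    rcases le_or_gt ‖q‖ (P / 2) with hq | hq
    · have h4 := (htwo q hq).1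
      have h5 : ‖q‖ * ‖z‖ ≤ mu / L * ‖q‖ ^ 2 / 2 + L * (1 / (2 * mu)) * ‖z‖ ^ 2 := by
        have h6 : mu / L * ‖q‖ ^ 2 / 2 + L * (1 / (2 * mu)) * ‖z‖ ^ 2 - ‖q‖ * ‖z‖ =
            mu / (2 * L) * (‖q‖ - L / mu * ‖z‖) ^ 2 := by
          field_simp
          ring
        have h7 : 0 ≤ mu / (2 * L) * (‖q‖ - L / mu * ‖z‖) ^ 2 := by positivity
        linarith
      linarith
    · have hq0 : 0 < ‖q‖ := by linarith
      have hl : 0 < P / (2 * ‖q‖) := by positivity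
      have hl1 : P / (2 * ‖q‖) ≤ 1 := by
        rw [div_le_one (by positivity)]
        linarith
      have h4 := ekp_ray hk p h q hl hl1
      have hn : ‖(P / (2 * ‖q‖)) • q‖ = P / 2 := by
        rw [norm_smul, Real.norm_eq_abs, abs_of_pos hl]
        field_simp
      have h5 := (htwo ((P / (2 * ‖q‖)) • q) hn.le).1
      rw [hn] at h5
      have h6 : mu / L * (P / 2) ^ 2 / 2 ≤ P / (2 * ‖q‖) * (k (p + q) - k p - inner ℝ h q) := by
        linarith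
      have h7 : mu * P / (4 * L) * ‖q‖ ≤ k (p + q) - k p - inner ℝ h q := by
        have h8 : P / (2 * ‖q‖) * (mu * P / (4 * L) * ‖q‖) = mu / L * (P / 2) ^ 2 / 2 := by
          field_simp
          ring
        rw [← h8] at h6
        exact le_of_mul_le_mul_left h6 hl
      have h9 : ‖q‖ * ‖z‖ ≤ mu * P / (4 * L) * ‖q‖ := by
        rw [mul_comm]
        exact mul_le_mul_of_nonneg_right hz hq0.le
      have h10 : 0 ≤ L * (1 / (2 * mu)) * ‖z‖ ^ 2 := by positivity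
      linarith
  · intro z hz
    have hrho : 0 < mu * P / (4 * L) := by positivity
    have hz0 : 0 < ‖z‖ := lt_of_lt_of_le hrho hz
    obtain ⟨rho, hrhoe⟩ : ∃ rho : ℝ, rho = mu * P / (4 * L) := ⟨_, rfl⟩
    rw [← hrhoe] at hz hrho ⊢
    have hq : ‖(rho / (L * mu * ‖z‖)) • z‖ = rho / (L * mu) := by
      rw [norm_smul, Real.norm_eq_abs, abs_of_pos (by positivity)]
      field_simp
    have h1 := hlow ((rho / (L * mu * ‖z‖)) • z) z (by
      rw [hq, hrhoe, div_div, div_le_iff₀ (by positivity)]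
      have : mu * P * 1 ≤ mu * P * (2 * (L * L)) := by
        apply mul_le_mul_of_nonneg_left _ (by positivity)
        nlinarith
      nlinarith)
    rw [hq, inner_smul_left, real_inner_self_eq_norm_sq] at h1
    simp only [conj_trivial] at h1
    have h2 : rho / (L * mu * ‖z‖) * ‖z‖ ^ 2 = rho * ‖z‖ / (L * mu) := by
      field_simp
    have h3 : L * mu * (rho / (L * mu)) ^ 2 / 2 ≤ rho * ‖z‖ / (2 * (L * mu)) := by
      have h4 : L * mu * (rho / (L * mu)) ^ 2 / 2 = rho * rho / (2 * (L * mu)) := by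
        field_simp
      rw [h4]
      exact div_le_div_of_nonneg_right (mul_le_mul_of_nonneg_left hz hrho.le) (by positivity)
    have h4 : 1 / (2 * mu) / L * rho * ‖z‖ = rho * ‖z‖ / (L * mu) - rho * ‖z‖ / (2 * (L * mu)) := by
      field_simp
      ring
    rw [h2] at h1
    linarith

end

end Pool.Agent.EMK
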