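import Pool.Agent.EMK.EKI
import Pool.Agent.EMK.EKF

/-!
EKZ: final form.
-/

set_option autoImplicit false
set_option linter.unusedSectionVars false

open MeasureTheory Module Set Filter Topology

namespace Pool.Agent.EMK

open Pool.H45.Mather Pool.Agent.LRT

noncomputable section

theorem emk_main {n : ℕ} (hn : 2 ≤ n) {E : Type*} [NormedAddCommGroup E] [InnerProductSpace ℝ E]
    [FiniteDimensional ℝ E] [CompleteSpace E] [MeasurableSpace E] [BorelSpace E] (b : Basis (Fin n) ℝ E)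
    (d La R : ℝ) (k : E → ℝ) (A : E → E) (V : E → ℝ) (hd : 1 < d) (hLa : 1 ≤ La) (hk : Kin d La R k)
    (hA : ContDiff ℝ 1 A) (hAp : Per b A) (hV : Continuous V) (hVp : Per b V) :
    [ContDiff ℝ 1 (betaL b (Leg (KMag k A V))),
      ∃ R : ℝ, ∀ h : E, R ≤ ‖h‖ → DifferentiableAt ℝ (betaL b (Leg (KMag k A V))) h,
      (∀ x u v : E, inner ℝ (fderiv ℝ A x u) v = inner ℝ (fderiv ℝ A x v) u) ∧
        ∀ x y : E, V x = V y].TFAE ∧
    (ContDiff ℝ 1 (betaL b (Leg (KMag k A V))) → C0Int b (KMag k A V)) := by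
  have hleg := leg_kmag hk hd hLa hA.continuous hAp hV hVp
  have hL : TonL b (LagK (Kst k) A V) := tonL_lagK hk hd hLa hA.continuous hAp hV hVp
  have hL0 : TonL b (LagK (Kst k) (fun _ => 0) V) := tonL_lagK hk hd hLa continuous_const (Per.const 0) hV hVp
  have hmain := ekf_main (b := b) hn (kin_asK hk hd hLa) hL hL0 hA hAp hV hVp
  rw [hleg]
  have h12 : ContDiff ℝ 1 (betaL b (LagK (Kst k) A V)) →
      ∃ R : ℝ, ∀ h : E, R ≤ ‖h‖ → DifferentiableAt ℝ (betaL b (LagK (Kst k) A V)) h :=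
    fun h => ⟨0, fun x _ => h.differentiable one_ne_zero x⟩
  refine ⟨?_, fun h => ?_⟩
  · tfae_have 1 → 2 := h12
    tfae_have 2 → 3 := hmain
    tfae_have 3 → 1 := fun h => emk_C1 hk hd hLa hA hAp hV hVp h.1 h.2
    tfae_finish
  · obtain ⟨h1, h2⟩ := hmain (h12 h)
    exact emk_c0 hk hA hAp h1 h2

end

end Pool.Agent.EMK
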